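import Pool.Graph.R_seed8.Y113.W.Tup

/-!
# Relations over number fields: the norm
-/

set_option autoImplicit false

open Module

namespace Pool.Agent.H443.QU

open Pool.Agent.Y113

section
variable {σ : Type} (K : IntermediateField ℚ ℂ) [FiniteDimensional ℚ K] (P : MvPolynomial σ ℂ)
  (hPc : ∀ m, P.coeff m ∈ K)

/-- the matrix of the multiplication by `P` -/
noncomputable def mm (i k : Fin (finrank ℚ K)) : MvPolynomial σ ℚ :=
  ∑ m ∈ P.support, MvPolynomial.monomial m
    ((Module.finBasis ℚ K).repr ((Module.finBasis ℚ K) i * ⟨P.coeff m, hPc m⟩) k)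

theorem coeff_mm (i k : Fin (finrank ℚ K)) (m : σ →₀ ℕ) : (mm K P hPc i k).coeff m =
    (Module.finBasis ℚ K).repr ((Module.finBasis ℚ K) i * ⟨P.coeff m, hPc m⟩) k := by
  classical
  unfold mm
  rw [MvPolynomial.coeff_sum]
  simp only [MvPolynomial.coeff_monomial]
  rw [Finset.sum_ite_eq' P.support m]
  split_ifs with h
  · rfl
  · rw [MvPolynomial.mem_support_iff, not_not] at h
    have h1 : (⟨P.coeff m, hPc m⟩ : K) = 0 := Subtype.ext h
    rw [h1, mul_zero, map_zero]
    rfl

theorem mm_deg {δ : ℕ} (hP : P.totalDegree ≤ δ) (i k : Fin (finrank ℚ K)) : (mm K P hPc i k).totalDegree ≤ δ := by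
  unfold mm
  refine MvPolynomial.totalDegree_finsetSum_le fun m hm => ?_
  exact (MvPolynomial.totalDegree_monomial_le _ _).trans ((MvPolynomial.le_totalDegree hm).trans hP)

theorem mm_mul (i : Fin (finrank ℚ K)) : ∑ k, MvPolynomial.C ((Module.finBasis ℚ K k : K) : ℂ) *
    MvPolynomial.map (algebraMap ℚ ℂ) (mm K P hPc i k) = MvPolynomial.C ((Module.finBasis ℚ K i : K) : ℂ) * P := by
  ext m
  rw [MvPolynomial.coeff_sum, MvPolynomial.coeff_C_mul]
  simp only [MvPolynomial.coeff_C_mul, MvPolynomial.coeff_map, coeff_mm]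
  have h := (Module.finBasis ℚ K).sum_repr ((Module.finBasis ℚ K) i * ⟨P.coeff m, hPc m⟩)
  have h2 := congrArg (fun z : K => (z : ℂ)) h
  simp only [AddSubmonoidClass.coe_finsetSum, MulMemClass.coe_mul] at h2
  rw [← h2]
  refine Finset.sum_congr rfl fun k _ => ?_
  rw [mul_comm]
  rfl

theorem det_ne (hP0 : P ≠ 0) : (Matrix.of (mm K P hPc)).det ≠ 0 := by
  classical
  intro h
  obtain ⟨v, hv0, hv⟩ := Matrix.exists_vecMul_eq_zero_iff.2 h
  have h1 : (∑ i, MvPolynomial.C ((Module.finBasis ℚ K i : K) : ℂ) * MvPolynomial.map (algebraMap ℚ ℂ) (v i)) * P = 0 := by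
    rw [Finset.sum_mul]
    have h2 : ∀ i, MvPolynomial.C ((Module.finBasis ℚ K i : K) : ℂ) * MvPolynomial.map (algebraMap ℚ ℂ) (v i) * P =
        ∑ k, MvPolynomial.C ((Module.finBasis ℚ K k : K) : ℂ) *
          MvPolynomial.map (algebraMap ℚ ℂ) (v i * mm K P hPc i k) := by
      intro i
      have e1 : MvPolynomial.C ((Module.finBasis ℚ K i : K) : ℂ) * MvPolynomial.map (algebraMap ℚ ℂ) (v i) * P =
          MvPolynomial.map (algebraMap ℚ ℂ) (v i) * (MvPolynomial.C ((Module.finBasis ℚ K i : K) : ℂ) * P) := by ring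
      rw [e1, ← mm_mul K P hPc i, Finset.mul_sum]
      refine Finset.sum_congr rfl fun k _ => ?_
      rw [map_mul]
      ring
    rw [Finset.sum_congr rfl fun i _ => h2 i, Finset.sum_comm]
    refine Finset.sum_eq_zero fun k _ => ?_
    rw [← Finset.mul_sum, ← map_sum]
    have h3 := congrFun hv k
    have h4 : ∑ i, v i * mm K P hPc i k = 0 := h3
    rw [h4, map_zero, mul_zero]
  have h2 := (mul_eq_zero.1 h1).resolve_right hP0
  apply hv0
  funext i
  ext m
  rw [Pi.zero_apply, MvPolynomial.coeff_zero]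
  have h3 := congrArg (MvPolynomial.coeff m) h2
  rw [MvPolynomial.coeff_sum, MvPolynomial.coeff_zero] at h3
  simp only [MvPolynomial.coeff_C_mul, MvPolynomial.coeff_map] at h3
  have h4 : ∑ i, (v i).coeff m • (Module.finBasis ℚ K i : K) = 0 := by
    apply Subtype.ext
    simp only [AddSubmonoidClass.coe_finsetSum, ZeroMemClass.coe_zero]
    rw [← h3]
    refine Finset.sum_congr rfl fun k _ => ?_
    rw [mul_comm]
    rfl
  exact Fintype.linearIndependent_iff.1 (Module.finBasis ℚ K).linearIndependent _ h4 i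

theorem deg_map (Q : MvPolynomial σ ℚ) : (MvPolynomial.map (algebraMap ℚ ℂ) Q).totalDegree ≤ Q.totalDegree := by
  classical
  unfold MvPolynomial.totalDegree
  exact Finset.sup_mono (MvPolynomial.support_map_subset _ _)

/-- the norm of a relation -/
theorem norm_rel {δ D : ℕ} (hK : finrank ℚ K ≤ D) (x : σ → ℂ) (hP0 : P ≠ 0) (hPd : P.totalDegree ≤ δ)
    (hPc : ∀ m, P.coeff m ∈ K) (hPv : MvPolynomial.aeval x P = 0) : Rel (D * δ) (1 : Submodule ℚ ℂ) x := by
  classical
  refine ⟨MvPolynomial.map (algebraMap ℚ ℂ) (Matrix.of (mm K P hPc)).det, ?_, ?_, ?_, ?_⟩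
  · intro h0
    exact det_ne K P hPc hP0 (MvPolynomial.map_injective _ (algebraMap ℚ ℂ).injective (h0.trans (map_zero _).symm))
  · refine (deg_map _).trans ?_
    rw [Matrix.det_apply]
    refine MvPolynomial.totalDegree_finsetSum_le fun τ _ => ?_
    refine (MvPolynomial.totalDegree_smul_le _ _).trans ?_
    refine (MvPolynomial.totalDegree_finsetProd _ _).trans ?_
    refine (Finset.sum_le_sum fun i _ => mm_deg K P hPc hPd (τ i) i).trans ?_
    rw [Finset.sum_const, Finset.card_univ, Fintype.card_fin, smul_eq_mul]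
    exact Nat.mul_le_mul_right _ hK
  · intro m
    rw [MvPolynomial.coeff_map]
    exact Submodule.algebraMap_mem _
  · have h1 : MvPolynomial.aeval x (MvPolynomial.map (algebraMap ℚ ℂ) (Matrix.of (mm K P hPc)).det) =
        (Matrix.of fun i k => MvPolynomial.aeval x (MvPolynomial.map (algebraMap ℚ ℂ) (mm K P hPc i k))).det := by
      have h2 := RingHom.map_det ((MvPolynomial.aeval x : MvPolynomial σ ℂ →ₐ[ℂ] ℂ).toRingHom.comp
        (MvPolynomial.map (algebraMap ℚ ℂ))) (Matrix.of (mm K P hPc))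
      exact h2
    rw [h1]
    apply Matrix.exists_mulVec_eq_zero_iff.1
    refine ⟨fun k => ((Module.finBasis ℚ K k : K) : ℂ), ?_, ?_⟩
    · intro h0
      have hpos : 0 < finrank ℚ K := Module.finrank_pos
      have h2 := congrFun h0 ⟨0, hpos⟩
      have h3 : (Module.finBasis ℚ K ⟨0, hpos⟩ : K) = 0 := Subtype.ext h2
      exact (Module.finBasis ℚ K).ne_zero _ h3
    · funext i
      have h2 := congrArg (MvPolynomial.aeval x) (mm_mul K P hPc i)
      rw [map_mul, hPv, mul_zero, map_sum] at h2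
      rw [Pi.zero_apply, ← h2]
      change ∑ k : Fin (finrank ℚ K), MvPolynomial.aeval x (MvPolynomial.map (algebraMap ℚ ℂ) (mm K P hPc i k)) *
        ((Module.finBasis ℚ K k : K) : ℂ) = _
      refine Finset.sum_congr rfl fun k _ => ?_
      rw [map_mul, MvPolynomial.aeval_C]
      exact mul_comm _ _

end

end Pool.Agent.H443.QU
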