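import Pool.Agent.H443.QU.Win
import Pool.Agent.H443.QU.Nrm

/-!
# Tuples: logarithms of quadratic integers
-/

set_option autoImplicit false

open Module

namespace Pool.Agent.H443.QU

open Pool.Agent.Y113 Pool.Agent.Y118.HG Pool.Agent.Y678.HV

/-- a nonzero rational multiple of `log u` plus a rational multiple of `2 π i` -/
def IsLog (u : ℝ) (l : ℂ) : Prop := ∃ m m' : ℤ, m ≠ 0 ∧ m' ≠ 0 ∧ Complex.exp (m * l) = (u : ℂ) ^ m'

/-- the unknown constant -/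
noncomputable def uu : Unit → ℂ := fun _ => 2 * (Real.pi : ℂ) * Complex.I

theorem isLog_mem {u : ℝ} (hu : 0 < u) {l : ℂ} (h : IsLog u l) : ∃ q : ℚ, q ≠ 0 ∧
    l - q * ((Real.log u : ℝ) : ℂ) ∈ sp uu := by
  obtain ⟨m, m', hm, hm', he⟩ := h
  have h1 : (u : ℂ) ^ m' = Complex.exp (m' * ((Real.log u : ℝ) : ℂ)) := by
    rw [Complex.exp_int_mul, ← Complex.ofReal_exp, Real.exp_log hu]
  rw [h1] at he
  obtain ⟨n, hn⟩ := Complex.exp_eq_exp_iff_exists_int.1 he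
  have hmC : (m : ℂ) ≠ 0 := by exact_mod_cast hm
  refine ⟨(m' : ℚ) / m, div_ne_zero (by exact_mod_cast hm') (by exact_mod_cast hm), ?_⟩
  have h2 : l - (((m' : ℚ) / m : ℚ) : ℂ) * ((Real.log u : ℝ) : ℂ) = ((n : ℚ) / m) • uu () := by
    rw [Algebra.smul_def, eq_ratCast, uu]
    push_cast
    field_simp
    linear_combination hn
  rw [h2]
  exact Submodule.smul_mem _ _ (sp_mem uu ())

section
variable {s : ℕ} (c : Fin s → ℤ)

/-- some logarithms of the numbers `qi (c a) (n j)` satisfy a relation of degree at most `δ` with coefficients in `V` -/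
def Dep (δ : ℕ) (V : Set ℂ) {k : ℕ} (n : Fin k → ℕ) : Prop :=
  ∃ l : Fin k × Fin s → ℂ, (∀ p, IsLog (qi (c p.2) (n p.1)) (l p)) ∧
    ∃ P : MvPolynomial (Fin k × Fin s) ℂ, P ≠ 0 ∧ P.totalDegree ≤ δ ∧ (∀ m, P.coeff m ∈ V) ∧ MvPolynomial.aeval l P = 0

variable {c}

theorem qi_pos {c : ℤ} {n : ℕ} (hn : 1 ≤ n) : 0 < qi c n := by
  unfold qi
  have h1 : (1 : ℝ) ≤ n := by exact_mod_cast hn
  have h2 := Real.sqrt_nonneg ((n : ℝ) ^ 2 - 4 * c)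
  linarith

theorem dep_rel {δ : ℕ} {V : Submodule ℚ ℂ} {k : ℕ} {n : Fin k → ℕ} (hn : ∀ i, 1 ≤ n i) (h : Dep c δ V n) :
    Rel δ (V * (sp uu) ^ δ) (fun p : Fin k × Fin s => xl c (n p.1) p.2) := by
  obtain ⟨l, hl, P, hP0, hPd, hPc, hPv⟩ := h
  choose q hq0 hq using fun p => isLog_mem (qi_pos (hn p.1)) (hl p)
  exact Pool.Agent.Y916.AW.rel_lin (sp_one uu) q hq0 hq ⟨P, hP0, hPd, hPc, hPv⟩

theorem dep_nf {δ D : ℕ} {K : IntermediateField ℚ ℂ} [FiniteDimensional ℚ K] (hK : finrank ℚ K ≤ D) {k : ℕ}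
    {n : Fin k → ℕ} (h : Dep c δ K n) : Dep c (D * δ) (1 : Submodule ℚ ℂ) n := by
  obtain ⟨l, hl, P, hP0, hPd, hPc, hPv⟩ := h
  exact ⟨l, hl, norm_rel K P hK l hP0 hPd hPc hPv⟩

theorem finrank_sp (V : Submodule ℚ ℂ) [Module.Finite ℚ V] {D : ℕ} (hV : finrank ℚ V ≤ D) (δ : ℕ) :
    Module.Finite ℚ ↥(V * (sp uu) ^ δ) ∧ finrank ℚ ↥(V * (sp uu) ^ δ) ≤ D * 2 ^ δ := by
  obtain ⟨hs1, hs2⟩ := sp_fin uu
  obtain ⟨hp1, hp2⟩ := finrank_pow_le (sp uu) δ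
  obtain ⟨hq1, hq2⟩ := finrank_mul_le V ((sp uu) ^ δ)
  exact ⟨hq1, hq2.trans (Nat.mul_le_mul hV (hp2.trans (Nat.pow_le_pow_left (hs2.trans (by simp)) _)))⟩

theorem finrank_one : finrank ℚ ↥(1 : Submodule ℚ ℂ) ≤ 1 := by
  have := (finrank_pow_le (⊥ : Submodule ℚ ℂ) 0).2
  rwa [pow_zero, pow_zero] at this

theorem dep_zero {c : Fin 0 → ℤ} {δ k : ℕ} {V : Set ℂ} {n : Fin k → ℕ} : ¬ Dep c δ V n := by
  rintro ⟨l, hl, P, hP0, -, -, hPv⟩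
  obtain ⟨a, rfl⟩ : ∃ a, P = MvPolynomial.C a := ⟨_, MvPolynomial.eq_C_of_isEmpty P⟩
  rw [MvPolynomial.aeval_C] at hPv
  apply hP0
  have : a = 0 := hPv
  rw [this, map_zero]

/-- windows -/
theorem windows (hc : Function.Injective c) (k δ D : ℕ) : ∃ M E : ℕ, ∀ V : Submodule ℚ ℂ, Module.Finite ℚ V →
    finrank ℚ V ≤ D → ∀ H t : ℕ, (H + 2) ^ E ≤ t → ∃ S : Finset ℕ, S.card ≤ M ∧ ∀ n : Fin k → ℕ,
    (∀ i, t ≤ n i ∧ n i ≤ t + H ∧ n i ∉ S) → (∀ i j, i ≠ j → (G0 c : ℤ) ≤ |(n i : ℤ) - n j|) → ¬ Dep c δ V n := by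
  rcases Nat.eq_zero_or_pos s with rfl | hs
  · exact ⟨0, 0, fun V _ _ H t _ => ⟨∅, by simp, fun n _ _ => dep_zero⟩⟩
  · obtain ⟨M, E, h⟩ := win c hc hs k δ (D * 2 ^ δ)
    refine ⟨M, E, fun V hVf hV H t ht => ?_⟩
    obtain ⟨h1, h2⟩ := finrank_sp V hV δ
    obtain ⟨S, hS, hS'⟩ := h _ h1 h2 H t ht
    refine ⟨S, hS, fun n hn hsep hdep => hS' n hn hsep (dep_rel (fun i => ?_) hdep)⟩
    have h3 : 1 ≤ (H + 2) ^ E := Nat.one_le_pow _ _ (by omega)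
    have := (hn i).1
    omega

/-- the hypothesis of the counting theorem -/
theorem hwin (hc : Function.Injective c) (hs : 0 < s) (δ D : ℕ) : ∃ M E : ℕ, ∀ (V : Submodule ℚ ℂ), Module.Finite ℚ V →
    finrank ℚ V ≤ D → ∀ (H t : ℕ), (H + 2) ^ E ≤ t → ∀ S : Finset ℕ, (∀ g ∈ S, g ≤ H ∧ Rel δ V (xl c (t - g))) →
    S.card ≤ M := by
  classical
  obtain ⟨M, E, h⟩ := win c hc hs 1 δ D
  refine ⟨M, E + 1, fun V hVf hV H t ht S hS => ?_⟩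
  have h1 : (H + 2) ^ (E + 1) = (H + 2) ^ E * (H + 2) := pow_succ _ _
  have h2 : 1 ≤ (H + 2) ^ E := Nat.one_le_pow _ _ (by omega)
  have h3 : (H + 2) ^ E ≤ t - H := by
    rw [h1] at ht
    have : (H + 2) ^ E + H ≤ (H + 2) ^ E * (H + 2) := by nlinarith
    omega
  have hHt : H ≤ t := by
    rw [h1] at ht
    nlinarith
  obtain ⟨S', hS', hn⟩ := h V hVf hV H (t - H) h3
  refine le_trans ?_ hS'
  refine Finset.card_le_card_of_injOn (fun g => t - g) ?_ ?_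
  · intro g hg
    obtain ⟨hgH, hrel⟩ := hS g hg
    by_contra hcon
    refine hn (fun _ => t - g) (fun _ => ⟨by omega, by omega, hcon⟩) (fun i j hij => absurd (Subsingleton.elim i j) hij) ?_
    exact hrel.reindex (Equiv.uniqueProd (Fin s) (Fin 1))
  · intro g hg g' hg' hgg
    have e1 := (hS g hg).1
    have e2 := (hS g' hg').1
    simp only at hgg
    omega

open Classical in
/-- tuples -/
theorem tuples (hc : Function.Injective c) (k δ D : ℕ) : ∃ κ : ℝ, 0 < κ ∧ ∃ C : ℝ, 0 ≤ C ∧ ∀ V : Submodule ℚ ℂ,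
    Module.Finite ℚ V → finrank ℚ V ≤ D → ∀ T : ℕ, 1 ≤ T →
    (((Fintype.piFinset fun _ : Fin k => Finset.Icc 2 T).filter fun n => Dep c δ V n).card : ℝ) ≤
      C * (T : ℝ) ^ ((k : ℝ) - κ) := by
  rcases Nat.eq_zero_or_pos s with rfl | hs
  · refine ⟨1, one_pos, 0, le_rfl, fun V _ _ T _ => ?_⟩
    rw [Finset.filter_false_of_mem fun n _ => dep_zero]
    simp
  · obtain ⟨κ, hκ, C, hC, h⟩ := count_tuples (xl c) (fun δ D => hwin hc hs δ D) δ k (D * 2 ^ δ)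
    refine ⟨κ, hκ, C, hC, fun V hVf hV T hT => ?_⟩
    obtain ⟨h1, h2⟩ := finrank_sp V hV δ
    refine le_trans ?_ (h _ h1 h2 T hT)
    refine Nat.cast_le.2 (Finset.card_le_card fun n hn => ?_)
    obtain ⟨hn1, hn2⟩ := Finset.mem_filter.1 hn
    refine Finset.mem_filter.2 ⟨hn1, ?_⟩
    rw [Fintype.mem_piFinset] at hn1
    exact dep_rel (fun i => by have := (Finset.mem_Icc.1 (hn1 i)).1; omega) hn2

end

end Pool.Agent.H443.QU
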