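import Pool.Graph.R_seed8.Y255.HL.Ind

/-!
# The field of rational functions inside the Laurent series, square roots of power series
-/

set_option autoImplicit false
set_option linter.unusedSectionVars false

namespace Pool.Agent.H443.QU

open Polynomial Pool.Agent.TH600.LC Pool.Agent.Y255.HL

attribute [-instance] DivisionRing.toRatAlgebra

/-- the field of rational functions -/
noncomputable def K1 : IntermediateField ℚ (EE ℚ) := (IsScalarTower.toAlgHom ℚ (KK ℚ) (EE ℚ)).fieldRange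

theorem mem_K1 (x : EE ℚ) : x ∈ K1 ↔ ∃ f : KK ℚ, algebraMap (KK ℚ) (EE ℚ) f = x := by
  unfold K1
  rw [AlgHom.mem_fieldRange]
  rfl

theorem poly_K1 (p : ℚ[X]) : emb ℚ (p : PowerSeries ℚ) ∈ K1 :=
  (mem_K1 _).2 ⟨algebraMap _ _ p, algebraMap_kk p⟩

theorem frac_K1 (x : EE ℚ) (hx : x ∈ K1) : ∃ A B : ℚ[X], B ≠ 0 ∧
    x * emb ℚ (B : PowerSeries ℚ) = emb ℚ (A : PowerSeries ℚ) := by
  obtain ⟨f, rfl⟩ := (mem_K1 x).1 hx
  obtain ⟨A, B, hB, h⟩ := exists_frac_kk f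
  refine ⟨A, B, hB, ?_⟩
  rw [h, div_mul_cancel₀ _ (emb_coe_ne hB)]

theorem emb_poly_inj {p q : ℚ[X]} (h : emb ℚ (p : PowerSeries ℚ) = emb ℚ (q : PowerSeries ℚ)) : p = q :=
  Polynomial.coe_injective _ (emb_injective h)

/-- the variable -/
noncomputable def xi : EE ℚ := emb ℚ PowerSeries.X

theorem xi_ne : xi ≠ 0 := by
  unfold xi
  rw [Ne, map_eq_zero_iff _ emb_injective]
  exact PowerSeries.X_ne_zero

theorem xi_K1 : xi ∈ K1 := by
  have h := poly_K1 X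
  rwa [Polynomial.coe_X] at h

theorem emb_C (c : ℚ) : emb ℚ (PowerSeries.C c) = algebraMap ℚ (EE ℚ) c := by
  rw [IsScalarTower.algebraMap_apply ℚ (PowerSeries ℚ) (EE ℚ)]
  rfl

section der
variable {DE : Derivation ℚ (EE ℚ) (EE ℚ)} (hDE : ∀ u, DE (emb ℚ u) = emb ℚ (PowerSeries.derivative ℚ u))

include hDE

theorem D_xi : DE xi = 1 := by
  rw [xi, hDE, PowerSeries.derivative_X, map_one]

theorem D_K1 {DF : Derivation ℚ (KK ℚ) (KK ℚ)}
    (hc : ∀ f : KK ℚ, DE (algebraMap (KK ℚ) (EE ℚ) f) = algebraMap (KK ℚ) (EE ℚ) (DF f)) (x : EE ℚ) (hx : x ∈ K1) :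
    DE x ∈ K1 := by
  obtain ⟨f, rfl⟩ := (mem_K1 x).1 hx
  exact (mem_K1 _).2 ⟨DF f, (hc f).symm⟩

theorem const_K1 (x : EE ℚ) (hx : DE x = 0) : x ∈ K1 := by
  obtain ⟨c, rfl⟩ := Pool.Agent.Y796.LI.const_EE DE hDE x hx
  exact K1.algebraMap_mem c

/-- a derivative has no residue at `0` -/
theorem res0 (x : EE ℚ) (w : PowerSeries ℚ) (h : xi * DE x = emb ℚ w) : PowerSeries.constantCoeff w = 0 := by
  obtain ⟨a, b, hb, rfl⟩ := IsFractionRing.div_surjective (A := PowerSeries ℚ) x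
  have hb0 : b ≠ 0 := nonZeroDivisors.ne_zero hb
  obtain ⟨n, u, hu⟩ : ∃ (n : ℕ) (u : (PowerSeries ℚ)ˣ), b = PowerSeries.X ^ n * (u : PowerSeries ℚ) := by
    refine ⟨b.order.toNat, PowerSeries.Unit_of_divided_by_X_pow_order b, ?_⟩
    rw [PowerSeries.Unit_of_divided_by_X_pow_order_nonzero hb0]
    exact (PowerSeries.X_pow_order_mul_divXPowOrder).symm
  obtain ⟨v, hv⟩ : ∃ v : PowerSeries ℚ, v = a * (u⁻¹ : (PowerSeries ℚ)ˣ) := ⟨_, rfl⟩
  have hb1 : emb ℚ b ≠ 0 := by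
    rw [Ne, map_eq_zero_iff _ emb_injective]
    exact hb0
  set x := emb ℚ a / emb ℚ b with hx
  have h1 : x * xi ^ n = emb ℚ v := by
    have h2 : emb ℚ b = xi ^ n * emb ℚ (u : PowerSeries ℚ) := by
      rw [hu, map_mul, map_pow]
      rfl
    have h3 : emb ℚ ((u⁻¹ : (PowerSeries ℚ)ˣ) : PowerSeries ℚ) * emb ℚ (u : PowerSeries ℚ) = 1 := by
      rw [← map_mul, Units.inv_mul, map_one]
    rw [hx, hv, map_mul, div_mul_eq_mul_div, div_eq_iff hb1, h2]
    linear_combination (-(emb ℚ a * xi ^ n)) * h3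
  have h2 := congrArg DE h1
  rw [Derivation.leibniz, Derivation.leibniz_pow, D_xi hDE, hDE] at h2
  simp only [smul_eq_mul, nsmul_eq_mul, mul_one] at h2
  have h3 : emb ℚ (PowerSeries.X ^ n * w + (n : PowerSeries ℚ) * v) = emb ℚ (PowerSeries.X * PowerSeries.derivative ℚ v) := by
    rw [map_add, map_mul, map_mul, map_pow, map_natCast, ← h, ← h1]
    change xi ^ n * (xi * DE x) + (n : EE ℚ) * (x * xi ^ n) = emb ℚ (PowerSeries.X * _)
    rw [map_mul]
    change _ = xi * _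
    rw [← h2]
    rcases Nat.eq_zero_or_pos n with hn | hn
    · subst hn
      simp
    · obtain ⟨m, rfl⟩ := Nat.exists_eq_succ_of_ne_zero hn.ne'
      simp only [Nat.succ_eq_add_one, Nat.add_sub_cancel]
      ring
  have h4 := congrArg (PowerSeries.coeff n) (emb_injective h3)
  have hn : (n : PowerSeries ℚ) = PowerSeries.C (n : ℚ) := by simp
  have h5 : PowerSeries.coeff n (PowerSeries.X * PowerSeries.derivative ℚ v) = n * PowerSeries.coeff n v := by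
    cases n with
    | zero => simp
    | succ m =>
      rw [PowerSeries.coeff_succ_X_mul, PowerSeries.coeff_derivative]
      push_cast
      ring
  rw [h5, map_add, hn, PowerSeries.coeff_C_mul, PowerSeries.coeff_X_pow_mul', if_pos le_rfl, Nat.sub_self] at h4
  rw [← PowerSeries.coeff_zero_eq_constantCoeff_apply]
  linarith

end der

section ns
variable {Q : Type} [DecidableEq Q] (φ : Q → ℚ[X]) (R : Q → PowerSeries ℚ)

/-- the square roots -/
noncomputable def rt (i : Q) : EE ℚ := emb ℚ (R i)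

variable {φ R}

theorem rt_sq (hR : ∀ i, R i ^ 2 * (φ i : PowerSeries ℚ) = 1) (i : Q) : rt R i ^ 2 * emb ℚ (φ i : PowerSeries ℚ) = 1 := by
  rw [rt, ← map_pow, ← map_mul, hR, map_one]

theorem rt_ne (hR : ∀ i, R i ^ 2 * (φ i : PowerSeries ℚ) = 1) (i : Q) : rt R i ≠ 0 := by
  intro h
  have := rt_sq hR i
  rw [h] at this
  simp at this

theorem rt_K1 (hR : ∀ i, R i ^ 2 * (φ i : PowerSeries ℚ) = 1) (i : Q) : rt R i ^ 2 ∈ K1 := by
  have h1 := rt_sq hR i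
  have h2 : rt R i ^ 2 = (emb ℚ (φ i : PowerSeries ℚ))⁻¹ := eq_inv_of_mul_eq_one_left h1
  rw [h2]
  exact inv_mem (poly_K1 _)

theorem nsq {T : Finset Q} (hT : T.Nonempty) (hsf : ∀ i, Squarefree (φ i)) (hdeg : ∀ i, 1 ≤ (φ i).natDegree)
    (hcop : ∀ i j, i ≠ j → IsCoprime (φ i) (φ j)) (A B : ℚ[X]) (h : A ^ 2 * ∏ i ∈ T, φ i = B ^ 2) : B = 0 := by
  by_contra hB
  have hA : A ≠ 0 := by
    rintro rfl
    rw [zero_pow two_ne_zero, zero_mul] at h
    exact pow_ne_zero 2 hB h.symm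
  have hdvd : A ∣ B := (UniqueFactorizationMonoid.pow_dvd_pow_iff_dvd two_ne_zero).1 ⟨_, h.symm⟩
  obtain ⟨C, rfl⟩ := hdvd
  have h1 : ∏ i ∈ T, φ i = C * C := by
    apply mul_left_cancel₀ (pow_ne_zero 2 hA)
    rw [h]
    ring
  have h2 : Squarefree (∏ i ∈ T, φ i) :=
    Finset.squarefree_prod_of_pairwise_isCoprime (fun i _ j _ hij => (hcop i j hij).isRelPrime) fun i _ => hsf i
  have h3 : IsUnit C := h2 C ⟨1, by rw [h1, mul_one]⟩
  have h4 : (∏ i ∈ T, φ i).natDegree = 0 := by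
    rw [h1]
    exact natDegree_eq_zero_of_isUnit (h3.mul h3)
  rw [natDegree_prod _ _ fun i _ => (hsf i).ne_zero] at h4
  obtain ⟨i, hi⟩ := hT
  have h5 := Finset.sum_eq_zero_iff.1 h4 i hi
  have := hdeg i
  omega

theorem rt_ns (hR : ∀ i, R i ^ 2 * (φ i : PowerSeries ℚ) = 1) (hsf : ∀ i, Squarefree (φ i))
    (hdeg : ∀ i, 1 ≤ (φ i).natDegree) (hcop : ∀ i j, i ≠ j → IsCoprime (φ i) (φ j)) (T : Finset Q) (hT : T.Nonempty) :
    pr (rt R) T ∉ K1 := by
  intro hx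
  obtain ⟨A, B, hB, hAB⟩ := frac_K1 _ hx
  have h1 : pr (rt R) T ^ 2 * emb ℚ ((∏ i ∈ T, φ i : ℚ[X]) : PowerSeries ℚ) = 1 := by
    have h2 : ((∏ i ∈ T, φ i : ℚ[X]) : PowerSeries ℚ) = ∏ i ∈ T, (φ i : PowerSeries ℚ) :=
      map_prod (Polynomial.coeToPowerSeries.ringHom) _ _
    rw [h2, map_prod, pr, ← Finset.prod_pow, ← Finset.prod_mul_distrib]
    exact Finset.prod_eq_one fun i _ => rt_sq hR i
  apply hB
  refine nsq hT hsf hdeg hcop A B ?_
  apply emb_poly_inj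
  rw [Polynomial.coe_mul, Polynomial.coe_pow, Polynomial.coe_pow, map_mul, map_pow, map_pow, ← hAB]
  linear_combination (emb ℚ (B : PowerSeries ℚ)) ^ 2 * h1

end ns

end Pool.Agent.H443.QU
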