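import Pool.Agent.H443.QU.Fld

/-!
# Functional independence of shifted logarithms of quadratic integers
-/

set_option autoImplicit false
set_option linter.unusedSectionVars false

namespace Pool.Agent.H443.QU

open Polynomial Pool.Agent.TH600.LC Pool.Agent.Y255.HL

attribute [-instance] DivisionRing.toRatAlgebra

/-- the hypotheses -/
structure Hyp {Q Z : Type} (φ : Q → ℚ[X]) (R Y : Q → PowerSeries ℚ) (x : Z → ℚ) (W : Z → PowerSeries ℚ) : Prop where
  R_sq : ∀ i, R i ^ 2 * (φ i : PowerSeries ℚ) = 1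
  R_zero : ∀ i, PowerSeries.constantCoeff (R i) = 1
  sf : ∀ i, Squarefree (φ i)
  deg : ∀ i, 1 ≤ (φ i).natDegree
  cop : ∀ i j, i ≠ j → IsCoprime (φ i) (φ j)
  Y_der : ∀ i, PowerSeries.X * PowerSeries.derivative ℚ (Y i) = 1 - R i
  x_inj : Function.Injective x
  x_ne : ∀ l, x l ≠ 0
  W_der : ∀ l, (1 + PowerSeries.C (x l) * PowerSeries.X) * PowerSeries.derivative ℚ (W l) = PowerSeries.C (x l)

variable {Q Z : Type} [Fintype Q] [Fintype Z] [DecidableEq Q] [DecidableEq Z] {φ : Q → ℚ[X]} {R Y : Q → PowerSeries ℚ}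
  {x : Z → ℚ} {W : Z → PowerSeries ℚ}

theorem lin_ne (_h : Hyp φ R Y x W) (l : Z) : xi + algebraMap ℚ (EE ℚ) (x l)⁻¹ ≠ 0 := by
  intro h1
  have h2 : emb ℚ ((X + C (x l)⁻¹ : ℚ[X]) : PowerSeries ℚ) = emb ℚ ((0 : ℚ[X]) : PowerSeries ℚ) := by
    rw [Polynomial.coe_add, Polynomial.coe_X, Polynomial.coe_C, map_add, emb_C, Polynomial.coe_zero, map_zero]
    exact h1
  have h3 := congrArg natDegree (emb_poly_inj h2)
  rw [natDegree_X_add_C, natDegree_zero] at h3
  exact one_ne_zero h3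

section der
variable {DE : Derivation ℚ (EE ℚ) (EE ℚ)} (hDE : ∀ u, DE (emb ℚ u) = emb ℚ (PowerSeries.derivative ℚ u))

include hDE

theorem D_W (h : Hyp φ R Y x W) (l : Z) : DE (emb ℚ (W l)) = (xi + algebraMap ℚ (EE ℚ) (x l)⁻¹)⁻¹ := by
  have h1 := congrArg (emb ℚ) (h.W_der l)
  rw [map_mul, map_add, map_mul, map_one, emb_C] at h1
  change (1 + algebraMap ℚ (EE ℚ) (x l) * xi) * _ = _ at h1
  have h2 : algebraMap ℚ (EE ℚ) (x l) ≠ 0 := by
    rw [Ne, map_eq_zero]
    exact h.x_ne l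
  rw [hDE]
  apply eq_inv_of_mul_eq_one_left
  apply mul_left_cancel₀ h2
  rw [map_inv₀]
  field_simp
  linear_combination h1

theorem D_Y (h : Hyp φ R Y x W) (i : Q) : DE (emb ℚ (Y i)) = (1 - rt R i) * xi⁻¹ := by
  have h1 := congrArg (emb ℚ) (h.Y_der i)
  rw [map_mul, map_sub, map_one] at h1
  rw [hDE, eq_mul_inv_iff_mul_eq₀ xi_ne, mul_comm]
  exact h1

/-- the equation for the logarithms -/
theorem eq_log' (h : Hyp φ R Y x W) (c : Z → ℚ) (b : EE ℚ) (hb : b ∈ K1)
    (hbD : DE b = ∑ l, algebraMap ℚ (EE ℚ) (c l) * DE (emb ℚ (W l))) : c = 0 := by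
  classical
  obtain ⟨A, B, hB, hAB⟩ := frac_K1 b hb
  have hD := congrArg DE hAB
  rw [Derivation.leibniz, hDE, hDE, PowerSeries.derivative_coe, PowerSeries.derivative_coe, smul_eq_mul,
    smul_eq_mul] at hD
  let ε := Fintype.equivFin Z
  set x' : Fin (Fintype.card Z) → ℚ := fun i => (x (ε.symm i))⁻¹ with hx'
  set e : Fin (Fintype.card Z) → ℚ := fun i => c (ε.symm i) with he
  have hinj : Function.Injective x' := by
    intro i j hij
    exact ε.symm.injective (h.x_inj (inv_injective hij))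
  have hlin : ∀ i, emb ℚ ((X + C (x' i) : ℚ[X]) : PowerSeries ℚ) = xi + algebraMap ℚ (EE ℚ) (x (ε.symm i))⁻¹ := by
    intro i
    rw [Polynomial.coe_add, Polynomial.coe_X, Polynomial.coe_C, map_add, emb_C]
    rfl
  have hne : ∀ i, emb ℚ ((X + C (x' i) : ℚ[X]) : PowerSeries ℚ) ≠ 0 := by
    intro i
    rw [hlin]
    exact lin_ne h _
  have hDb : DE b = ∑ i, algebraMap ℚ (EE ℚ) (e i) * (emb ℚ ((X + C (x' i) : ℚ[X]) : PowerSeries ℚ))⁻¹ := by
    rw [hbD, ← ε.symm.sum_comp]
    refine Finset.sum_congr rfl fun i _ => ?_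
    rw [D_W hDE h, hlin]
  have hprod : ∀ i, emb ℚ ((∏ j, (X + C (x' j)) : ℚ[X]) : PowerSeries ℚ) =
      emb ℚ ((X + C (x' i) : ℚ[X]) : PowerSeries ℚ) *
        emb ℚ ((∏ j ∈ Finset.univ.erase i, (X + C (x' j)) : ℚ[X]) : PowerSeries ℚ) := by
    intro i
    rw [← map_mul, ← Polynomial.coe_mul]
    have := (Finset.mul_prod_erase Finset.univ (fun j => (X + C (x' j) : ℚ[X])) (Finset.mem_univ i)).symm
    exact congrArg (fun p : ℚ[X] => emb ℚ (p : PowerSeries ℚ)) this
  have hfin : (derivative A * B - A * derivative B) * ∏ i, (X + C (x' i)) =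
      B * B * ∑ i, C (e i) * ∏ j ∈ Finset.univ.erase i, (X + C (x' j)) := by
    apply emb_poly_inj
    have e1 : DE b * emb ℚ ((∏ j, (X + C (x' j)) : ℚ[X]) : PowerSeries ℚ) =
        emb ℚ ((∑ i, C (e i) * ∏ j ∈ Finset.univ.erase i, (X + C (x' j)) : ℚ[X]) : PowerSeries ℚ) := by
      have e2 : ((∑ i, C (e i) * ∏ j ∈ Finset.univ.erase i, (X + C (x' j)) : ℚ[X]) : PowerSeries ℚ) =
          ∑ i, ((C (e i) * ∏ j ∈ Finset.univ.erase i, (X + C (x' j)) : ℚ[X]) : PowerSeries ℚ) :=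
        map_sum (Polynomial.coeToPowerSeries.ringHom) (fun i => C (e i) * ∏ j ∈ Finset.univ.erase i, (X + C (x' j)))
          Finset.univ
      rw [hDb, Finset.sum_mul, e2, map_sum]
      refine Finset.sum_congr rfl fun i _ => ?_
      rw [hprod i, Polynomial.coe_mul, map_mul, Polynomial.coe_C, emb_C, mul_assoc]
      congr 1
      rw [← mul_assoc, inv_mul_cancel₀ (hne i), one_mul]
    have e3 : ∀ p q : ℚ[X], ((p - q : ℚ[X]) : PowerSeries ℚ) = (p : PowerSeries ℚ) - q := fun p q =>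
      map_sub (Polynomial.coeToPowerSeries.ringHom) p q
    rw [Polynomial.coe_mul, Polynomial.coe_mul, map_mul, map_mul, e3, map_sub, Polynomial.coe_mul, Polynomial.coe_mul,
      Polynomial.coe_mul, map_mul, map_mul, map_mul, ← e1, ← hAB]
    linear_combination (-(emb ℚ (B : PowerSeries ℚ)) * emb ℚ ((∏ j, (X + C (x' j)) : ℚ[X]) : PowerSeries ℚ)) * hD
  have h0 := simpleQ x' e hinj A B hB hfin
  funext l
  have h1 := congrFun h0 (ε l)
  simp only [he, Equiv.symm_apply_apply] at h1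
  exact h1

end der

section ind
variable {DF : Derivation ℚ (KK ℚ) (KK ℚ)} {DE : Derivation ℚ (EE ℚ) (EE ℚ)}
  (hDE : ∀ u, DE (emb ℚ u) = emb ℚ (PowerSeries.derivative ℚ u))
  (hc : ∀ f : KK ℚ, DE (algebraMap (KK ℚ) (EE ℚ) f) = algebraMap (KK ℚ) (EE ℚ) (DF f))
  (h : Hyp φ R Y x W)

/-- the derivation on the field of the square roots -/
noncomputable def DL : Derivation ℚ (Lf K1 (rt R)) (Lf K1 (rt R)) :=
  Derivation.mk' { toFun := fun x => ⟨DE x, D_Lf K1 DE (D_K1 hDE hc) (rt_ne h.R_sq) (rt_K1 h.R_sq) x x.2⟩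
                   map_add' := fun x y => Subtype.ext (by simp)
                   map_smul' := fun c x => Subtype.ext (by simp) }
    (fun a b => Subtype.ext (by simp [Derivation.leibniz]))

/-- the primitives -/
noncomputable def yw (Y : Q → PowerSeries ℚ) (W : Z → PowerSeries ℚ) : Q ⊕ Z → EE ℚ := fun s => emb ℚ (Sum.elim Y W s)

include hDE hc h in
theorem indep : AlgebraicIndependent (Lf K1 (rt R)) (yw Y W) := by
  classical
  set L := Lf K1 (rt R) with hL
  have hr0 := rt_ne h.R_sq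
  have hr2 := rt_K1 h.R_sq
  have hns := rt_ns h.R_sq h.sf h.deg h.cop
  have hDK := D_K1 hDE hc
  have hcK := const_K1 hDE
  have hxiK : xi⁻¹ ∈ K1 := inv_mem xi_K1
  have hWK : ∀ l, DE (emb ℚ (W l)) ∈ K1 := by
    intro l
    rw [D_W hDE h]
    exact inv_mem (add_mem xi_K1 (K1.algebraMap_mem _))
  have hw : ∀ s, DE (yw Y W s) ∈ L := by
    rintro (i | l)
    · change DE (emb ℚ (Y i)) ∈ L
      rw [D_Y hDE h]
      exact mul_mem (sub_mem (one_mem _) (r_mem K1 i)) (K_le_Lf K1 hxiK)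
    · exact K_le_Lf K1 (hWK l)
  refine Pool.Agent.W253.LF.t_OST ℚ L (EE ℚ) (DL hDE hc h) DE (fun x => rfl) (Pool.Agent.Y796.LI.const_EE DE hDE) _ _
    (fun i => ⟨DE (yw Y W i), hw i⟩) (fun i => rfl) ?_
  intro c f hf
  obtain ⟨a, ha, hfa⟩ := mem_Lf K1 hr2 (f : EE ℚ) f.2
  have hb : ∀ T, ∃ b ∈ K1, DE (a T * pr (rt R) T) = b * pr (rt R) T := by
    intro T
    obtain ⟨l, hl, hD⟩ := root_eig K1 DE hDK hr0 hr2 T
    refine ⟨DE (a T) + a T * l, add_mem (hDK _ (ha T)) (mul_mem (ha T) hl), ?_⟩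
    rw [Derivation.leibniz, hD, smul_eq_mul, smul_eq_mul]
    ring
  choose b hbK hb using hb
  set γ : Q → EE ℚ := fun i => -(algebraMap ℚ (EE ℚ) (c (Sum.inl i))) * xi⁻¹ with hγ
  set β : EE ℚ := ∑ i, algebraMap ℚ (EE ℚ) (c (Sum.inl i)) * xi⁻¹ +
    ∑ l, algebraMap ℚ (EE ℚ) (c (Sum.inr l)) * DE (emb ℚ (W l)) with hβ
  have hγK : ∀ i, γ i ∈ K1 := fun i => mul_mem (neg_mem (K1.algebraMap_mem _)) hxiK
  have hβK : β ∈ K1 := add_mem (sum_mem fun i _ => mul_mem (K1.algebraMap_mem _) hxiK)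
    (sum_mem fun l _ => mul_mem (K1.algebraMap_mem _) (hWK l))
  have hDf : DE (f : EE ℚ) = ∑ i, γ i * pr (rt R) {i} + β := by
    have h1 : (f : EE ℚ) = ∑ i, algebraMap ℚ (EE ℚ) (c i) * yw Y W i := hf.symm
    rw [h1, map_sum, Fintype.sum_sum_type, hβ, ← add_assoc, ← Finset.sum_add_distrib]
    congr 1
    · refine Finset.sum_congr rfl fun i _ => ?_
      rw [pr_singleton, Derivation.leibniz, Derivation.map_algebraMap, smul_zero, add_zero, smul_eq_mul]
      change _ * DE (emb ℚ (Y i)) = _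
      rw [D_Y hDE h, hγ]
      ring
    · refine Finset.sum_congr rfl fun l _ => ?_
      rw [Derivation.leibniz, Derivation.map_algebraMap, smul_zero, add_zero, smul_eq_mul]
      rfl
  have hDf2 : DE (f : EE ℚ) = ∑ T, b T * pr (rt R) T := by
    rw [hfa, map_sum]
    exact Finset.sum_congr rfl fun T _ => hb T
  set cc : Finset Q → EE ℚ := fun T =>
    b T - (if T = ∅ then β else 0) - ∑ i, (if T = {i} then γ i else 0) with hcc
  have hccK : ∀ T, cc T ∈ K1 := by
    intro T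
    refine sub_mem (sub_mem (hbK T) ?_) (sum_mem fun l _ => ?_)
    · split_ifs
      · exact hβK
      · exact zero_mem _
    · split_ifs
      · exact hγK l
      · exact zero_mem _
  have hsum : ∑ T, cc T * pr (rt R) T = 0 := by
    have h1 : ∑ T, (if T = ∅ then β else 0) * pr (rt R) T = β := by
      rw [Finset.sum_eq_single ∅]
      · rw [if_pos rfl, pr_empty, mul_one]
      · intro T _ hT
        rw [if_neg hT, zero_mul]
      · intro h; exact absurd (Finset.mem_univ _) h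
    have h2 : ∑ T, (∑ i, (if T = {i} then γ i else 0)) * pr (rt R) T = ∑ i, γ i * pr (rt R) {i} := by
      simp only [Finset.sum_mul]
      rw [Finset.sum_comm]
      refine Finset.sum_congr rfl fun l _ => ?_
      rw [Finset.sum_eq_single {l}]
      · rw [if_pos rfl]
      · intro T _ hT
        rw [if_neg hT, zero_mul]
      · intro h; exact absurd (Finset.mem_univ _) h
    simp only [hcc, sub_mul, Finset.sum_sub_distrib]
    rw [h1, h2, ← hDf2, hDf]
    ring
  have hzero : ∀ T, cc T = 0 := fun T =>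
    pr_lin K1 DE hDK hcK hr0 hr2 hns Finset.univ cc hccK hsum T (Finset.mem_univ T)
  have hc1 : ∀ i, c (Sum.inl i) = 0 := by
    intro i
    have h1 := hzero {i}
    rw [hcc] at h1
    simp only at h1
    rw [if_neg (Finset.singleton_ne_empty i), sub_zero, Finset.sum_eq_single i] at h1
    · rw [if_pos rfl, sub_eq_zero] at h1
      have h2 := hb {i}
      rw [h1, pr_singleton] at h2
      have h3 : xi * DE (a {i} * rt R i) = emb ℚ (-(PowerSeries.C (c (Sum.inl i)) * R i)) := by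
        rw [h2, map_neg, map_mul, emb_C, hγ]
        simp only
        change _ = -(_ * rt R i)
        have := xi_ne
        field_simp
      have h4 := res0 hDE _ _ h3
      rw [map_neg, map_mul, h.R_zero] at h4
      simpa using h4
    · intro l' _ hl'
      rw [if_neg]
      intro h
      exact hl' (Finset.singleton_injective h).symm
    · intro h; exact absurd (Finset.mem_univ _) h
  have hc2 : (fun l => c (Sum.inr l)) = 0 := by
    have h1 := hzero ∅
    rw [hcc] at h1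
    simp only at h1
    rw [if_pos trivial, Finset.sum_eq_zero, sub_zero, sub_eq_zero] at h1
    · have h2 := hb ∅
      rw [h1, pr_empty, mul_one, mul_one, hβ, Finset.sum_eq_zero (fun i _ => by rw [hc1, map_zero, zero_mul]), zero_add] at h2
      exact eq_log' hDE h _ (a ∅) (ha _) h2
    · intro l _
      rw [if_neg (Finset.singleton_ne_empty l).symm]
  funext s
  rcases s with i | l
  · exact hc1 i
  · exact congrFun hc2 l

end ind

/-- functional independence -/
theorem li (h : Hyp φ R Y x W) : LinearIndependent ℚ[X] (fun p : Finset Q × (Q ⊕ Z →₀ ℕ) =>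
    (∏ i ∈ p.1, R i) * p.2.prod fun s e => Sum.elim Y W s ^ e) := by
  classical
  obtain ⟨DF, DE, hDF, hDE, hcc⟩ := Pool.Agent.Y796.LI.exists_pair ℚ
  have hind := indep hDE hcc h
  rw [linearIndependent_iff']
  intro s c hsum p₀ hp₀
  set L := Lf K1 (rt R) with hL
  -- the relation in the field
  have h1 : ∑ p ∈ s, emb ℚ (c p : PowerSeries ℚ) * (∏ i ∈ p.1, rt R i) * (p.2.prod fun t e => yw Y W t ^ e) = 0 := by
    have h2 := congrArg (emb ℚ) hsum
    rw [map_zero, map_sum] at h2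
    rw [← h2]
    refine Finset.sum_congr rfl fun p _ => ?_
    rw [Algebra.smul_def, map_mul, map_mul, map_prod, mul_assoc]
    congr 1
    congr 1
    rw [Finsupp.prod, Finsupp.prod, map_prod]
    refine Finset.prod_congr rfl fun x _ => ?_
    rw [map_pow]
    rfl
  have hco : ∀ p : Finset Q × (Q ⊕ Z →₀ ℕ), emb ℚ (c p : PowerSeries ℚ) * (∏ i ∈ p.1, rt R i) ∈ L := by
    intro p
    exact mul_mem (K_le_Lf K1 (poly_K1 _)) (prod_mem fun i _ => r_mem K1 i)
  set P : MvPolynomial (Q ⊕ Z) L := ∑ p ∈ s, MvPolynomial.monomial p.2 (⟨_, hco p⟩ : L) with hP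
  have h2 : MvPolynomial.aeval (yw Y W) P = 0 := by
    rw [hP, map_sum, ← h1]
    refine Finset.sum_congr rfl fun p _ => ?_
    rw [MvPolynomial.aeval_monomial]
    rfl
  have h3 : P = 0 := hind.eq_zero_of_aeval_eq_zero _ h2
  -- the coefficient
  set s' := s.filter (fun p => p.2 = p₀.2) with hs'
  have h4 := congrArg (MvPolynomial.coeff p₀.2) h3
  rw [hP, MvPolynomial.coeff_sum, MvPolynomial.coeff_zero] at h4
  simp only [MvPolynomial.coeff_monomial] at h4
  rw [← Finset.sum_filter] at h4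
  have h5 := congrArg (fun x : L => (x : EE ℚ)) h4
  simp only [ZeroMemClass.coe_zero, AddSubmonoidClass.coe_finsetSum] at h5
  have h6 : ∑ p ∈ s', emb ℚ (c p : PowerSeries ℚ) * pr (rt R) p.1 = 0 := h5
  -- linear independence of the products of the square roots
  have hinj : Set.InjOn (fun p : Finset Q × (Q ⊕ Z →₀ ℕ) => p.1) s' := by
    intro p hp q hq hpq
    have e2 : p.2 = p₀.2 := (Finset.mem_filter.1 hp).2
    have e3 : q.2 = p₀.2 := (Finset.mem_filter.1 hq).2
    exact Prod.ext hpq (e2.trans e3.symm)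
  set a : Finset Q → EE ℚ := fun T => emb ℚ (c (T, p₀.2) : PowerSeries ℚ) with ha
  have h7 : ∑ T ∈ s'.image (fun p => p.1), a T * pr (rt R) T = 0 := by
    rw [Finset.sum_image hinj, ← h6]
    refine Finset.sum_congr rfl fun p hp => ?_
    have e2 : p.2 = p₀.2 := (Finset.mem_filter.1 hp).2
    simp only [ha, ← e2]
  have h8 := pr_lin K1 DE (D_K1 hDE hcc) (const_K1 hDE) (rt_ne h.R_sq) (rt_K1 h.R_sq)
    (rt_ns h.R_sq h.sf h.deg h.cop) _ a
    (fun T => poly_K1 _) h7 p₀.1
    (Finset.mem_image.2 ⟨p₀, Finset.mem_filter.2 ⟨hp₀, rfl⟩, rfl⟩)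
  have h9 : c p₀ = 0 := by
    apply emb_poly_inj
    rw [Polynomial.coe_zero, map_zero]
    exact h8
  exact h9

end Pool.Agent.H443.QU
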