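import Pool.Agent.H443.QU.Sys
import Pool.Agent.H443.QU.LI
import Pool.Graph.R_seed8.Y118.HG.Defs2

/-!
# Functional independence for separated shifts
-/

set_option autoImplicit false

open Polynomial

namespace Pool.Agent.H443.QU

open Pool.Agent.Y113 Pool.Agent.Y118.HG

/-- the polynomial over `ℚ` -/
noncomputable def pq (c g : ℚ) : ℚ[X] := (1 + C g * X) ^ 2 - C (4 * c) * X ^ 2

theorem C2 : (C 2 : ℚ[X]) = 2 := map_ofNat C 2
theorem C4 : (C 4 : ℚ[X]) = 4 := map_ofNat C 4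

theorem ph_map (c : ℤ) (g : ℕ) : (ph c g).map (Int.castRingHom ℚ) = pq c g := by
  unfold ph pq
  simp [C4]

theorem pq_sf (c g : ℚ) (hc : c ≠ 0) : Squarefree (pq c g) := by
  apply Polynomial.Separable.squarefree
  have h1 : (C (1 / 2 : ℚ) : ℚ[X]) * 2 = 1 := by
    rw [← C2, ← C_mul]
    norm_num
  have h2 : (C (4 * c) : ℚ[X]) * C (g ^ 2 / (4 * c)) = C g ^ 2 := by
    rw [← C_mul, ← C_pow]
    congr 1
    field_simp
  have hd : derivative (pq c g) = 2 * (C g * (1 + C g * X)) - 2 * (C (4 * c) * X) := by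
    unfold pq
    simp [derivative_pow, C2]
    ring
  unfold Polynomial.Separable
  rw [hd]
  refine ⟨((1 + C g * X) - 2 * C g * X + C (g ^ 2 / (4 * c)) * (1 + C g * X)) - C (g ^ 2 / (4 * c)),
    -(C (1 / 2 : ℚ) * X * ((1 + C g * X) - 2 * C g * X + C (g ^ 2 / (4 * c)) * (1 + C g * X))), ?_⟩
  unfold pq
  linear_combination (-(X * ((1 + C g * X) - 2 * C g * X + C (g ^ 2 / (4 * c)) * (1 + C g * X)) *
    (C g * (1 + C g * X) - C (4 * c) * X))) * h1 + X ^ 2 * h2

theorem pq_deg (c g : ℚ) (hg : g ≠ 0) : 1 ≤ (pq c g).natDegree := by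
  apply le_natDegree_of_ne_zero
  have h1 : pq c g = 1 + C (2 * g) * X + C (g ^ 2 - 4 * c) * X ^ 2 := by
    unfold pq
    simp only [C_sub, C_mul, C_pow]
    rw [C2]
    ring
  rw [h1]
  simp only [coeff_add, coeff_C_mul, coeff_X_pow, coeff_X_one]
  rw [coeff_one]
  simpa using hg

theorem pq_cop {c c' : ℤ} {g g' : ℕ} (h : (g = g' ∧ c ≠ c') ∨ (2 * (|c| + |c'|) < |(g : ℤ) - g'|)) :
    IsCoprime (pq c g) (pq c' g') := by
  rw [Polynomial.isCoprime_iff_aeval_ne_zero_of_isAlgClosed ℚ ℂ]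
  intro z
  by_contra hcon
  push Not at hcon
  obtain ⟨h1, h2⟩ := hcon
  unfold pq at h1 h2
  simp only [map_sub, map_mul, map_pow, map_add, map_one, aeval_X, aeval_C, map_natCast, map_intCast, map_ofNat] at h1 h2
  have hz : z ≠ 0 := by
    rintro rfl
    simp at h1
  have hpos : 0 < ‖z‖ := norm_pos_iff.2 hz
  have key : ∀ (c : ℤ) (g : ℕ), (1 + (g : ℂ) * z) ^ 2 - 4 * (c : ℂ) * z ^ 2 = 0 → ‖1 + (g : ℂ) * z‖ ≤ 2 * |(c : ℝ)| * ‖z‖ := by
    intro c g hcg
    have e1 : (1 + (g : ℂ) * z) ^ 2 = 4 * (c : ℂ) * z ^ 2 := sub_eq_zero.1 hcg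
    have e2 := congrArg norm e1
    rw [norm_pow, norm_mul, norm_mul, norm_pow, Complex.norm_intCast] at e2
    have e3 : ‖(4 : ℂ)‖ = 4 := by norm_num
    rw [e3] at e2
    have e4 : |(c : ℝ)| ≤ |(c : ℝ)| ^ 2 := by
      rcases eq_or_ne c 0 with rfl | hc
      · simp
      · have : (1 : ℝ) ≤ |(c : ℝ)| := by exact_mod_cast Int.one_le_abs hc
        nlinarith
    refine abs_le_of_sq_le_sq' ?_ (by positivity) |>.2
    rw [e2]
    nlinarith [mul_le_mul_of_nonneg_right e4 (sq_nonneg ‖z‖)]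
  have k1 := key c g h1
  have k2 := key c' g' h2
  rcases h with ⟨rfl, hcc⟩ | hlt
  · have h3 : ((c : ℂ) - c') * z ^ 2 = 0 := by linear_combination (h2 - h1) / 4
    rcases mul_eq_zero.1 h3 with h4 | h4
    · exact hcc (by exact_mod_cast sub_eq_zero.1 h4)
    · exact hz (pow_eq_zero_iff two_ne_zero |>.1 h4)
  · have h3 : ‖((g : ℂ) - g') * z‖ ≤ 2 * (|(c : ℝ)| + |(c' : ℝ)|) * ‖z‖ := by
      have e1 : ((g : ℂ) - g') * z = (1 + (g : ℂ) * z) - (1 + (g' : ℂ) * z) := by ring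
      rw [e1]
      refine (norm_sub_le _ _).trans ?_
      linarith
    rw [norm_mul] at h3
    have h4 := le_of_mul_le_mul_right h3 hpos
    have h5 : ‖((g : ℂ) - g')‖ = |((g : ℝ) - g')| := by
      have : ((g : ℂ) - g') = (((g : ℝ) - g' : ℝ) : ℂ) := by push_cast; ring
      rw [this, Complex.norm_real, Real.norm_eq_abs]
    rw [h5] at h4
    have h6 : (|(g : ℤ) - g'|) ≤ 2 * (|c| + |c'|) := by
      have : ((|(g : ℤ) - g'| : ℤ) : ℝ) ≤ ((2 * (|c| + |c'|) : ℤ) : ℝ) := by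
        push_cast
        exact h4
      exact_mod_cast this
    omega

section
variable {s : ℕ} (c : Fin s → ℤ) {r : ℕ} (g : Fin r → ℕ)

/-- indices of the square roots -/
abbrev QQ {s : ℕ} (c : Fin s → ℤ) (r : ℕ) : Type := {p : Fin r × Fin s // ¬ c p.2 = 0}

/-- indices of the logarithms of rational functions -/
abbrev ZZ {s : ℕ} (c : Fin s → ℤ) (r : ℕ) : Type := {p : Fin r × Fin s // c p.2 = 0}

/-- the separation -/
def G0 {s : ℕ} (c : Fin s → ℤ) : ℕ := 1 + 4 * ∑ a, (c a).natAbs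

theorem G0_pos : 0 < G0 c := by unfold G0; omega

theorem hyp (hc : Function.Injective c) (hg : SepN (G0 c) g) :
    Hyp (fun q : QQ c r => pq (c q.1.2) ((g q.1.1 + 1 : ℕ) : ℚ)) (fun q : QQ c r => Rq (c q.1.2) (g q.1.1 + 1))
      (fun q : QQ c r => Yq (c q.1.2) (g q.1.1 + 1)) (fun z : ZZ c r => ((g z.1.1 + 1 : ℕ) : ℚ))
      (fun z : ZZ c r => Yq (c z.1.2) (g z.1.1 + 1)) where
  R_sq q := by
    rw [← ph_map]
    exact Rq_sq _ _
  R_zero q := Rq_zero _ _
  sf q := pq_sf _ _ (by exact_mod_cast q.2)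
  deg q := pq_deg _ _ (Nat.cast_ne_zero.2 (Nat.succ_ne_zero _))
  cop q q' hqq := by
    obtain ⟨⟨l, a⟩, ha⟩ := q
    obtain ⟨⟨l', a'⟩, ha'⟩ := q'
    simp only
    apply pq_cop
    by_cases hl : l = l'
    · subst hl
      left
      refine ⟨rfl, fun h => ?_⟩
      have := hc h
      subst this
      exact hqq rfl
    · right
      have h1 := hg l l' hl
      have h2 : ∀ a, |c a| ≤ ((∑ a, (c a).natAbs : ℕ) : ℤ) := by
        intro a
        rw [Int.abs_eq_natAbs]
        exact_mod_cast Finset.single_le_sum (f := fun a => (c a).natAbs) (fun _ _ => Nat.zero_le _) (Finset.mem_univ a)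
      have h3 := h2 a
      have h4 := h2 a'
      unfold G0 at h1
      push_cast at h1 h3 h4 ⊢
      have h5 : (g l : ℤ) + 1 - (g l' + 1) = g l - g l' := by ring
      rw [h5]
      linarith
  Y_der q := Yq_der _ _
  x_inj := by
    rintro ⟨⟨l, a⟩, ha⟩ ⟨⟨l', a'⟩, ha'⟩ h
    simp only at ha ha' h
    have h1 : a = a' := hc (ha.trans ha'.symm)
    have h2 : l = l' := by
      by_contra hl
      have h3 := hg l l' hl
      have h4 : g l = g l' := by
        have : g l + 1 = g l' + 1 := by exact_mod_cast h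
        omega
      rw [h4, sub_self, abs_zero] at h3
      have := G0_pos c
      omega
    subst h1
    subst h2
    rfl
  x_ne z := Nat.cast_ne_zero.2 (Nat.succ_ne_zero _)
  W_der z := by
    obtain ⟨⟨l, a⟩, ha⟩ := z
    simp only at ha ⊢
    rw [ha]
    exact Y0_der _

variable {Δ : ℕ} {c}

/-- the roots which occur -/
def AA (b : Fin r → Kap c Δ) : Finset (QQ c r) := Finset.univ.filter fun q => (((b q.1.1).1 q.1.2).1 true : ℕ) = 1

/-- the exponents -/
noncomputable def DD (b : Fin r → Kap c Δ) : (QQ c r ⊕ ZZ c r) →₀ ℕ :=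
  Finsupp.equivFunOnFinite.symm fun t => Sum.elim (fun q : QQ c r => (((b q.1.1).1 q.1.2).1 false : ℕ))
    (fun z : ZZ c r => (((b z.1.1).1 z.1.2).1 false : ℕ)) t

theorem inj_AD : Function.Injective (fun b : Fin r → Kap c Δ => (AA b, DD b)) := by
  intro b b' h
  have h1 : AA b = AA b' := congrArg Prod.fst h
  have h2 : DD b = DD b' := congrArg Prod.snd h
  funext l
  apply Subtype.ext
  funext a
  apply Subtype.ext
  funext i
  apply Fin.ext
  by_cases ha : c a = 0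
  · cases i
    · exact DFunLike.congr_fun h2 (Sum.inr ⟨(l, a), ha⟩)
    · rw [(b l).2 a ha, (b' l).2 a ha]
  · cases i
    · exact DFunLike.congr_fun h2 (Sum.inl ⟨(l, a), ha⟩)
    · have h3 : (⟨(l, a), ha⟩ : QQ c r) ∈ AA b ↔ (⟨(l, a), ha⟩ : QQ c r) ∈ AA b' := by rw [h1]
      unfold AA at h3
      simp only [Finset.mem_filter, Finset.mem_univ, true_and] at h3
      have h4 := ((b l).1 a).2.2
      have h5 := ((b' l).1 a).2.2
      omega

theorem prod_ww (b : Fin r → Kap c Δ) : ∏ l, ww c Δ (g l) (b l) = (∏ q ∈ AA b, Rq (c q.1.2) (g q.1.1 + 1)) *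
    (DD b).prod fun t e => Sum.elim (fun q : QQ c r => Yq (c q.1.2) (g q.1.1 + 1))
      (fun z : ZZ c r => Yq (c z.1.2) (g z.1.1 + 1)) t ^ e := by
  rw [Finsupp.prod_fintype _ _ (fun _ => pow_zero _), Fintype.prod_sum_type, AA, Finset.prod_filter, ← mul_assoc,
    ← Finset.prod_mul_distrib]
  have h1 : ∏ l, ww c Δ (g l) (b l) = ∏ p : Fin r × Fin s, wf (c p.2) Δ (g p.1 + 1) ((b p.1).1 p.2) := by
    rw [Fintype.prod_prod_type]
    rfl
  rw [h1, ← Fintype.prod_subtype_mul_prod_subtype (fun p : Fin r × Fin s => c p.2 = 0), mul_comm]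
  congr 1
  · refine Finset.prod_congr rfl fun q _ => ?_
    rw [wf_def, if_neg q.2]
    congr 1
    have h4 := ((b q.1.1).1 q.1.2).2.2
    split_ifs with h
    · rw [h, pow_one]
    · have : (((b q.1.1).1 q.1.2).1 true : ℕ) = 0 := by omega
      rw [this, pow_zero]
  · refine Finset.prod_congr rfl fun z _ => ?_
    rw [wf_def, if_pos z.2, one_mul]
    rfl

/-- functional independence for separated shifts -/
theorem lind (hc : Function.Injective c) (hg : SepN (G0 c) g) :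
    LinearIndependent ℚ[X] (fun e : Fin r → Kap c Δ => ∏ l, ww c Δ (g l) (e l)) := by
  classical
  have h1 := (li (hyp c g hc hg)).comp (fun b : Fin r → Kap c Δ => (AA b, DD b)) inj_AD
  have h2 : (fun e : Fin r → Kap c Δ => ∏ l, ww c Δ (g l) (e l)) =
      (fun p : Finset (QQ c r) × (QQ c r ⊕ ZZ c r →₀ ℕ) => (∏ i ∈ p.1, Rq (c i.1.2) (g i.1.1 + 1)) *
        p.2.prod fun t e => Sum.elim (fun q : QQ c r => Yq (c q.1.2) (g q.1.1 + 1))
          (fun z : ZZ c r => Yq (c z.1.2) (g z.1.1 + 1)) t ^ e) ∘ (fun b : Fin r → Kap c Δ => (AA b, DD b)) := by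
    funext b
    exact prod_ww g b
  rw [h2]
  exact h1

end

end Pool.Agent.H443.QU
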