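import Pool.Graph.R_seed8.Y419.HY.Alg
import Pool.Graph.R_seed8.Y678.HV.Base

/-!
# The power series of the logarithms of quadratic integers with given norm
-/

set_option autoImplicit false

open PowerSeries

namespace Pool.Agent.H443.QU

open Pool.Agent.Y113 Pool.Agent.Y916.Hy Pool.Agent.Y120.GF Pool.Agent.Y678.HV

/-- `z² ((1/z + g)² - 4 c)` -/
noncomputable def ph (c : ℤ) (g : ℕ) : Polynomial ℤ :=
  (1 + Polynomial.C (g : ℤ) * Polynomial.X) ^ 2 - Polynomial.C (4 * c) * Polynomial.X ^ 2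

/-- `1 / √φ` -/
noncomputable def Rq (c : ℤ) (g : ℕ) : ℚ⟦X⟧ := Rt (ph c g)

/-- the logarithm -/
noncomputable def Yq (c : ℤ) (g : ℕ) : ℚ⟦X⟧ := PowerSeries.mk fun m => -(coeff m (Rq c g)) / m

theorem ph_zero (c : ℤ) (g : ℕ) : (ph c g).coeff 0 = 1 := by
  rw [Polynomial.coeff_zero_eq_eval_zero, ph]
  simp

theorem ps_sub' (P Q : Polynomial ℤ) : ps (P - Q) = ps P - ps Q := by
  unfold ps
  rw [Polynomial.map_sub]
  exact map_sub (Polynomial.coeToPowerSeries.ringHom (R := ℚ)) _ _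

theorem ps_X' : ps Polynomial.X = X := by
  unfold ps
  rw [Polynomial.map_X, Polynomial.coe_X]

theorem ps_ph (c : ℤ) (g : ℕ) : ps (ph c g) = (1 + C (g : ℚ) * X) ^ 2 - C (4 * c : ℚ) * X ^ 2 := by
  have h : ps (ph c g) = ps ((1 + Polynomial.C (g : ℤ) * Polynomial.X) ^ 2) -
      ps (Polynomial.C (4 * c) * Polynomial.X ^ 2) := ps_sub' _ _
  rw [h, ps_pow, ps_one_add, ps_mul, ps_C, ps_pow, ps_X']
  congr 2
  have h1 : ((4 * c : ℤ) : ℚ⟦X⟧) = C ((4 * c : ℤ) : ℚ) := (map_intCast (PowerSeries.C (R := ℚ)) _).symm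
  rw [h1]
  push_cast
  rfl

theorem ph_natDegree (c : ℤ) (g : ℕ) : (ph c g).natDegree ≤ 2 := by
  unfold ph
  refine (Polynomial.natDegree_sub_le _ _).trans (max_le ?_ ?_)
  · refine Polynomial.natDegree_pow_le.trans ?_
    have := (Bd_one_add g).1
    omega
  · exact (Polynomial.natDegree_C_mul_le _ _).trans (by rw [Polynomial.natDegree_X_pow])

theorem Rq_sq (c : ℤ) (g : ℕ) : Rq c g ^ 2 * ps (ph c g) = 1 := by
  have h := (Pool.Agent.Y419.HY.t_rt (ph c g) (by rw [ph_zero]; exact one_pos)).1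
  rw [ph_zero] at h
  unfold Rq
  simpa using h

theorem Rq_zero (c : ℤ) (g : ℕ) : constantCoeff (Rq c g) = 1 :=
  (Pool.Agent.Y419.HY.t_rt (ph c g) (by rw [ph_zero]; exact one_pos)).2

theorem Rq_coeff (c : ℤ) (g : ℕ) : coeff 0 (Rq c g) = 1 := by
  rw [coeff_zero_eq_constantCoeff_apply, Rq_zero]

theorem Yq_zero (c : ℤ) (g : ℕ) : coeff 0 (Yq c g) = 0 := by
  rw [Yq, coeff_mk]
  simp

/-- `(1 - R) / z` -/
noncomputable def Hq (c : ℤ) (g : ℕ) : ℚ⟦X⟧ := PowerSeries.mk fun m => -(coeff (m + 1) (Rq c g))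

theorem Yq_der' (c : ℤ) (g : ℕ) : d⁄dX ℚ (Yq c g) = Hq c g := by
  ext m
  rw [coeff_derivative, Yq, Hq, coeff_mk, coeff_mk]
  have : ((m : ℚ) + 1) ≠ 0 := by positivity
  push_cast
  field_simp

theorem X_Hq (c : ℤ) (g : ℕ) : X * Hq c g = 1 - Rq c g := by
  ext m
  rw [map_sub, coeff_one]
  rcases m with _ | m
  · rw [coeff_zero_X_mul, if_pos rfl, Rq_coeff, sub_self]
  · rw [coeff_succ_X_mul, Hq, coeff_mk, if_neg (Nat.succ_ne_zero m), zero_sub]

theorem Yq_der (c : ℤ) (g : ℕ) : X * d⁄dX ℚ (Yq c g) = 1 - Rq c g := by rw [Yq_der', X_Hq]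

theorem R0_mul (g : ℕ) : Rq 0 g * (1 + C (g : ℚ) * X) = 1 := by
  have h1 := Rq_sq 0 g
  rw [ps_ph] at h1
  simp only [Int.cast_zero, mul_zero, map_zero, zero_mul, sub_zero] at h1
  have h2 : (Rq 0 g * (1 + C (g : ℚ) * X) - 1) * (Rq 0 g * (1 + C (g : ℚ) * X) + 1) = 0 := by
    linear_combination h1
  rcases mul_eq_zero.1 h2 with h3 | h3
  · exact sub_eq_zero.1 h3
  · exfalso
    have h4 := congrArg constantCoeff h3
    rw [map_add, map_mul, Rq_zero, map_add, map_mul] at h4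
    simp at h4

theorem Y0_der (g : ℕ) : (1 + C (g : ℚ) * X) * d⁄dX ℚ (Yq 0 g) = C (g : ℚ) := by
  have h1 := Yq_der 0 g
  have h2 := R0_mul g
  have h3 : (X : ℚ⟦X⟧) * ((1 + C (g : ℚ) * X) * d⁄dX ℚ (Yq 0 g)) = X * C (g : ℚ) := by
    linear_combination (1 + C (g : ℚ) * X) * h1 - h2
  exact mul_left_cancel₀ X_ne_zero h3

theorem ph_bd (c : ℤ) : ∃ E : ℕ, ∀ g : ℕ, Bd 2 (((g : ℝ) + 2) ^ E) (ph c g) := by
  obtain ⟨e, he⟩ := exists_two_pow (4 * |(c : ℝ)|)
  refine ⟨5 + e, fun g => ⟨ph_natDegree c g, fun l => ?_⟩⟩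
  have hx := two_le_g g
  have hx1 := one_le_base g
  have h1 := ((Bd_one_add g).pow 2).2 l
  unfold ph
  rw [Polynomial.coeff_sub, Polynomial.coeff_C_mul, Polynomial.coeff_X_pow]
  have h2 : (0 : ℝ) ≤ 4 * |(c : ℝ)| := by positivity
  have h3 : |(((4 * c : ℤ) * (if l = 2 then 1 else 0) : ℤ) : ℝ)| ≤ 4 * |(c : ℝ)| := by
    split_ifs
    · push_cast
      rw [mul_one, abs_mul]
      norm_num
    · simp
  have h4 : ((((1 : ℕ) : ℝ) + 1) * ((g : ℝ) + 2)) ^ 2 ≤ ((g : ℝ) + 2) ^ 4 := by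
    have h5 : (((1 : ℕ) : ℝ) + 1) * ((g : ℝ) + 2) ≤ ((g : ℝ) + 2) ^ 2 := by
      push_cast
      nlinarith
    calc ((((1 : ℕ) : ℝ) + 1) * ((g : ℝ) + 2)) ^ 2 ≤ (((g : ℝ) + 2) ^ 2) ^ 2 :=
          pow_le_pow_left₀ (by positivity) h5 _
      _ = _ := by rw [← pow_mul]
  have h6 : 4 * |(c : ℝ)| ≤ ((g : ℝ) + 2) ^ e := he.trans (pow_le_pow_left₀ (by norm_num) hx _)
  push_cast at h3 ⊢
  refine (abs_sub _ _).trans ((add_le_add (h1.trans h4) (h3.trans h6)).trans ?_)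
  have e1 : (1 : ℝ) ≤ ((g : ℝ) + 2) ^ 4 := one_le_pow₀ hx1
  have e2 : (1 : ℝ) ≤ ((g : ℝ) + 2) ^ e := one_le_pow₀ hx1
  have e3 : ((g : ℝ) + 2) ^ (5 + e) = ((g : ℝ) + 2) * (((g : ℝ) + 2) ^ 4 * ((g : ℝ) + 2) ^ e) := by ring
  have e4 : ((g : ℝ) + 2) ^ 4 + ((g : ℝ) + 2) ^ e ≤ 2 * (((g : ℝ) + 2) ^ 4 * ((g : ℝ) + 2) ^ e) := by nlinarith
  rw [e3]
  exact e4.trans (mul_le_mul_of_nonneg_right hx (by positivity))

/-! ### The base family -/

/-- the functions with shift `g` -/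
noncomputable def zq (c : ℤ) (g : ℕ) (b : Bool) : ℚ⟦X⟧ := if b then Rq c g else Yq c g

theorem base_sys (c : ℤ) : ∃ q E : ℕ, ∀ g : ℕ, GSys q (((g : ℝ) + 2) ^ E) (ph c g * Polynomial.X)
    (fun o : Option Bool => o.elim 1 (zq c g)) := by
  classical
  obtain ⟨E₀, hE₀⟩ := ph_bd c
  obtain ⟨E₁, hE₁⟩ := Pool.Agent.Y419.HY.t_alg 2
  obtain ⟨E₂, hE₂⟩ := t_enl 2 1
  obtain ⟨E₃, hE₃⟩ := t_fam 3 (2 + 1)
  obtain ⟨E₄, hE₄⟩ := int_ext (2 + 1) 1
  obtain ⟨E₅, hE₅⟩ := t_fam 4 (2 + 1)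
  set A := (E₀ + 2) * E₁ with hA
  set B := (A + E₀ + 1) * E₂ + 1 with hB
  set D := (B + 1) * E₃ + 1 + E₀ with hD
  set G := (D + 1) * E₄ + 1 with hG
  refine ⟨2 + 1, (G + 1) * E₅, fun g => ?_⟩
  have hx := two_le_g g
  have hx1 := one_le_base g
  have hle : ∀ k, 1 ≤ k → (2 : ℝ) ≤ ((g : ℝ) + 2) ^ k := fun k hk => hx.trans (le_self_pow₀ hx1 (by omega))
  -- `{1, R}`
  have h1 : GSys 2 (((g : ℝ) + 2) ^ A) (ph c g) (fun b : Bool => if b then Rt (ph c g) else 1) := by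
    have h2 := hE₁ ((g + 2) ^ E₀) (ph c g) (by rw [ph_zero]; exact one_pos) (ph_natDegree c g)
      (fun l => by
        have := (hE₀ g).2 l
        have h3 : ((|(ph c g).coeff l| : ℤ) : ℝ) ≤ (((g + 2) ^ E₀ : ℕ) : ℝ) := by
          push_cast
          exact this
        exact_mod_cast h3)
    refine h2.mono le_rfl ?_
    push_cast
    have h3 : ((g : ℝ) + 2) ^ E₀ + 2 ≤ ((g : ℝ) + 2) ^ (E₀ + 2) := by
      have h4 : (1 : ℝ) ≤ ((g : ℝ) + 2) ^ E₀ := one_le_pow₀ hx1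
      have h5 : (4 : ℝ) ≤ ((g : ℝ) + 2) ^ 2 := by nlinarith
      rw [pow_add]
      nlinarith [mul_le_mul_of_nonneg_left h5 (show (0 : ℝ) ≤ ((g : ℝ) + 2) ^ E₀ by positivity)]
    calc (((g : ℝ) + 2) ^ E₀ + 2) ^ E₁ ≤ (((g : ℝ) + 2) ^ (E₀ + 2)) ^ E₁ :=
          pow_le_pow_left₀ (by positivity) h3 _
      _ = ((g : ℝ) + 2) ^ ((E₀ + 2) * E₁) := by rw [pow_mul]
  -- the factor `X`
  have h2 := hE₂ _ _ _ Polynomial.X _ (h1.mono le_rfl (base_mono hx1 (show A ≤ A + E₀ by omega)))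
    Polynomial.natDegree_X_le (fun l => by
      rw [Polynomial.coeff_X]
      have : (1 : ℝ) ≤ ((g : ℝ) + 2) ^ (A + E₀) := one_le_pow₀ hx1
      split_ifs
      · simpa using this
      · simp; positivity)
  have h3 : GSys (2 + 1) (((g : ℝ) + 2) ^ B) (ph c g * Polynomial.X) (fun b : Bool => if b then Rt (ph c g) else 1) :=
    h2.mono le_rfl ((pow_base g _ _).trans (base_mono hx1 (by omega)))
  -- `{1, R, 1 - R}`
  have hB1 : (1 : ℝ) ≤ ((g : ℝ) + 2) ^ B := one_le_pow₀ hx1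
  have h4 := hE₃ Bool (Fin 3) _ _ _ (![1, Rq c g, 1 - Rq c g] : Fin 3 → ℚ⟦X⟧)
    (fun j b => if b then (![0, 1, -1] : Fin 3 → ℤ) j else (![1, 0, 1] : Fin 3 → ℤ) j)
    (fun b j => if b then (![0, 1, 0] : Fin 3 → ℤ) j else (![1, 0, 0] : Fin 3 → ℤ) j) (by simp) (by simp) h3
    (by
      intro j b
      fin_cases j <;> cases b <;> simp <;> linarith)
    (by
      intro b j
      fin_cases j <;> cases b <;> simp <;> linarith)
    (by
      intro j
      rw [Fintype.sum_bool]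
      fin_cases j <;> simp [Rq]
      ring)
    (by
      intro b
      rw [Fin.sum_univ_three]
      cases b <;> simp [Rq])
  have h5 : GSys (2 + 1) (((g : ℝ) + 2) ^ D) (ph c g * Polynomial.X) (![1, Rq c g, 1 - Rq c g] : Fin 3 → ℚ⟦X⟧) :=
    h4.mono le_rfl ((pow_base g _ _).trans (base_mono hx1 (by omega)))
  -- the logarithm
  have h6 := hE₄ _ Unit _ _ _ (fun _ => Yq c g) h5 (fun _ => by
    refine ⟨Yq_zero c g, fun _ => 1, fun _ => Hq c g, fun _ => ?_, fun _ => ?_, ?_⟩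
    · simpa using one_le_pow₀ hx1
    · refine ⟨0, 1, ph c g, 2, Or.inr ⟨rfl, rfl⟩, ?_, ?_, ?_, ?_⟩
      · simpa using one_le_pow₀ hx1
      · simp [mul_comm]
      · intro l
        exact ((hE₀ g).2 l).trans (base_mono hx1 (by omega))
      · have e1 : ps (Polynomial.C (0 : ℤ) + Polynomial.C (1 : ℤ) * Polynomial.X) = X := by
          rw [ps_lin]
          simp
        rw [e1, X_Hq]
        rfl
    · rw [Yq_der', Fin.sum_univ_one]
      simp)
  have h7 := h6.mono le_rfl ((pow_base g _ _).trans (base_mono hx1 (show (D + 1) * E₄ ≤ G by omega)))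
  -- `{1, R, Y}`
  have hG1 : (1 : ℝ) ≤ ((g : ℝ) + 2) ^ G := one_le_pow₀ hx1
  have h8 := hE₅ (Fin 3 ⊕ Unit) (Option Bool) _ _ _ (fun o : Option Bool => o.elim 1 (zq c g))
    (fun o => Sum.elim (match o with | none => ![1, 0, 0] | some true => ![0, 1, 0] | some false => ![0, 0, 0])
      (match o with | none => fun _ => 0 | some true => fun _ => 0 | some false => fun _ => 1))
    (fun i o => match o with
      | none => Sum.elim ![1, 0, 1] (fun _ => 0) i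
      | some true => Sum.elim ![0, 1, -1] (fun _ => 0) i
      | some false => Sum.elim ![0, 0, 0] (fun _ => 1) i) (by simp) (by simp) h7
    (by
      rintro (_ | (_ | _)) (i | u)
      · fin_cases i <;> simp <;> linarith
      · simp; linarith
      · fin_cases i <;> simp <;> linarith
      · simp; linarith
      · fin_cases i <;> simp <;> linarith
      · simp; linarith)
    (by
      rintro (i | u) (_ | (_ | _))
      · fin_cases i <;> simp <;> linarith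
      · fin_cases i <;> simp <;> linarith
      · fin_cases i <;> simp <;> linarith
      · simp; linarith
      · simp; linarith
      · simp; linarith)
    (by
      rintro (_ | (_ | _))
      · rw [Fintype.sum_sum_type, Fin.sum_univ_three]
        simp
      · rw [Fintype.sum_sum_type, Fin.sum_univ_three]
        simp [zq]
      · rw [Fintype.sum_sum_type, Fin.sum_univ_three]
        simp [zq])
    (by
      rintro (i | u)
      · rw [Fintype.sum_option, Fintype.sum_bool]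
        fin_cases i <;> simp [zq]
        ring
      · rw [Fintype.sum_option, Fintype.sum_bool]
        simp [zq])
  exact h8.mono le_rfl (pow_base g _ _)

end Pool.Agent.H443.QU
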