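import Pool.Agent.H443.QU.Ser
import Pool.Graph.R_seed8.Y678.HG.HGMon
import Pool.Graph.R_seed8.Y678.HV.Col

/-!
# Reduced monomials form G-systems
-/

set_option autoImplicit false

open PowerSeries

namespace Pool.Agent.H443.QU

open Pool.Agent.Y113 Pool.Agent.Y916.Hy Pool.Agent.Y120.GF Pool.Agent.Y678.HV

/-- exponents with `e true ≤ 1` -/
def Kx (Δ : ℕ) : Type := {e : Bool → Fin (Δ + 1) // (∑ i, (e i : ℕ)) ≤ Δ ∧ (e true : ℕ) ≤ 1}

instance (Δ : ℕ) : Fintype (Kx Δ) := by unfold Kx; infer_instance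
instance (Δ : ℕ) : DecidableEq (Kx Δ) := by unfold Kx; infer_instance

/-- the exponents which occur -/
def eexp (c : ℤ) {Δ : ℕ} (e : Kx Δ) (b : Bool) : ℕ :=
  if b then (if c = 0 then 0 else (e.1 true : ℕ)) else (e.1 false : ℕ)

/-- the monomials -/
noncomputable def wf (c : ℤ) (Δ g : ℕ) (e : Kx Δ) : ℚ⟦X⟧ := ∏ b, zq c g b ^ eexp c e b

theorem eexp_le (c : ℤ) {Δ : ℕ} (e : Kx Δ) : ∑ b, eexp c e b ≤ Δ := by
  refine le_trans (Finset.sum_le_sum fun b _ => ?_) e.2.1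
  unfold eexp
  cases b
  · simp
  · simp only [if_true]
    split_ifs
    · exact Nat.zero_le _
    · exact le_rfl

theorem wf_def (c : ℤ) (Δ g : ℕ) (e : Kx Δ) : wf c Δ g e =
    (if c = 0 then 1 else Rq c g ^ (e.1 true : ℕ)) * Yq c g ^ (e.1 false : ℕ) := by
  unfold wf
  rw [Fintype.prod_bool]
  unfold eexp zq
  simp only [if_true, Bool.false_eq_true, if_false]
  split_ifs
  · rw [pow_zero]
  · rfl

theorem reduce (c : ℤ) (Δ : ℕ) : ∃ E : ℕ, ∀ e : Bool → ℕ, ∑ b, e b ≤ Δ → ∃ (j : Kx Δ) (P : ℕ → Polynomial ℤ),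
    ∀ g : ℕ, Bd (2 * Δ) (((g : ℝ) + 2) ^ E) (P g) ∧
      ps (ph c g ^ Δ) * ∏ b, zq c g b ^ e b = ps (P g) * wf c Δ g j := by
  obtain ⟨E, hE⟩ := ph_bd c
  refine ⟨(E + 2) * Δ + 4 * Δ, fun e he => ?_⟩
  rw [Fintype.sum_bool] at he
  by_cases hc : c = 0
  · subst hc
    refine ⟨⟨fun b => if b then 0 else ⟨e false, by omega⟩, ?_, ?_⟩,
      fun g => (1 + Polynomial.C (g : ℤ) * Polynomial.X) ^ (2 * Δ - e true), fun g => ⟨?_, ?_⟩⟩
    · rw [Fintype.sum_bool]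
      simp
      omega
    · simp
    · have hx := two_le_g g
      have hx1 := one_le_base g
      refine ((Bd_one_add g).pow _).mono (by omega) ?_
      have h5 : (((1 : ℕ) : ℝ) + 1) * ((g : ℝ) + 2) ≤ ((g : ℝ) + 2) ^ 2 := by
        push_cast
        nlinarith
      calc ((((1 : ℕ) : ℝ) + 1) * ((g : ℝ) + 2)) ^ (2 * Δ - e true) ≤ (((g : ℝ) + 2) ^ 2) ^ (2 * Δ - e true) :=
            pow_le_pow_left₀ (by positivity) h5 _
        _ = ((g : ℝ) + 2) ^ (2 * (2 * Δ - e true)) := by rw [← pow_mul]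
        _ ≤ _ := base_mono hx1 (by omega)
    · rw [wf_def, if_pos rfl, one_mul, Fintype.prod_bool, ps_pow, ps_pow, ps_one_add, ps_ph]
      simp only [zq, if_true, Bool.false_eq_true, if_false, Int.cast_zero, mul_zero, map_zero, zero_mul, sub_zero]
      have h1 : ((1 + C (g : ℚ) * X) ^ 2) ^ Δ = (1 + C (g : ℚ) * X : ℚ⟦X⟧) ^ (2 * Δ - e true) *
          (1 + C (g : ℚ) * X) ^ (e true) := by
        rw [← pow_mul, ← pow_add]
        congr 1
        omega
      have h2 : (1 + C (g : ℚ) * X : ℚ⟦X⟧) ^ (e true) * Rq 0 g ^ (e true) = 1 := by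
        rw [← mul_pow, mul_comm, R0_mul, one_pow]
      rw [h1]
      linear_combination ((1 + C (g : ℚ) * X : ℚ⟦X⟧) ^ (2 * Δ - e true) * Yq 0 g ^ (e false)) * h2
  · refine ⟨⟨fun b => if b then ⟨e true % 2, by have := Nat.mod_le (e true) 2; omega⟩ else ⟨e false, by omega⟩, ?_, ?_⟩,
      fun g => ph c g ^ (Δ - e true / 2), fun g => ⟨?_, ?_⟩⟩
    · rw [Fintype.sum_bool]
      simp
      have := Nat.mod_le (e true) 2
      omega
    · simp
      omega
    · have hx := two_le_g g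
      have hx1 := one_le_base g
      refine ((hE g).pow _).mono (by omega) ?_
      have h5 : (((2 : ℕ) : ℝ) + 1) * ((g : ℝ) + 2) ^ E ≤ ((g : ℝ) + 2) ^ (E + 2) := by
        rw [pow_add, mul_comm]
        refine mul_le_mul_of_nonneg_left ?_ (by positivity)
        push_cast
        nlinarith
      calc ((((2 : ℕ) : ℝ) + 1) * ((g : ℝ) + 2) ^ E) ^ (Δ - e true / 2) ≤
          (((g : ℝ) + 2) ^ (E + 2)) ^ (Δ - e true / 2) := pow_le_pow_left₀ (by positivity) h5 _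
        _ = ((g : ℝ) + 2) ^ ((E + 2) * (Δ - e true / 2)) := by rw [← pow_mul]
        _ ≤ _ := base_mono hx1 (by
          have : (E + 2) * (Δ - e true / 2) ≤ (E + 2) * Δ := Nat.mul_le_mul_left _ (Nat.sub_le _ _)
          omega)
    · rw [wf_def, if_neg hc, Fintype.prod_bool, ps_pow, ps_pow]
      simp only [zq, if_true, Bool.false_eq_true, if_false]
      set k := e true / 2 with hk
      have h3 : e true = 2 * k + e true % 2 := (Nat.div_add_mod _ _).symm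
      have h4 : Δ = (Δ - k) + k := by omega
      have h5 : Rq c g ^ e true = Rq c g ^ (2 * k) * Rq c g ^ (e true % 2) := by rw [← pow_add, ← h3]
      have h6 : ps (ph c g) ^ Δ = ps (ph c g) ^ (Δ - k) * ps (ph c g) ^ k := by rw [← pow_add, ← h4]
      have h7 : ps (ph c g) ^ k * Rq c g ^ (2 * k) = 1 := by
        rw [pow_mul, ← mul_pow, mul_comm, Rq_sq, one_pow]
      rw [h5, h6]
      linear_combination (ps (ph c g) ^ (Δ - k) * Rq c g ^ (e true % 2) * Yq c g ^ (e false)) * h7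

/-- the denominator -/
noncomputable def Tq (c : ℤ) (Δ g : ℕ) : Polynomial ℤ := ph c g * Polynomial.X * ph c g ^ Δ

/-- the reduced monomials -/
theorem one_sys (c : ℤ) (Δ : ℕ) : ∃ q E : ℕ, ∀ g : ℕ, GSys q (((g : ℝ) + 2) ^ E) (Tq c Δ g) (wf c Δ g) := by
  classical
  obtain ⟨q, E₀, hE₀⟩ := base_sys c
  obtain ⟨E₁, hE₁⟩ := Pool.Agent.Y678.HG.words hE₀ Δ
  obtain ⟨E₂, hE₂⟩ := reduce c Δ
  obtain ⟨E₃, hE₃⟩ := ph_bd c
  obtain ⟨E₄, hE₄⟩ := t_col (max (Fintype.card (Fin Δ → Option Bool)) (Fintype.card (Kx Δ))) q (2 * Δ)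
  -- words
  choose wd hwd using fun j : Kx Δ => Pool.Agent.Y678.HG.exists_word Δ (eexp c j) (eexp_le c j)
  choose ex hex1 hex2 using Pool.Agent.Y678.HG.word_exp (ι := Bool) Δ
  choose jj P hP using fun f : Fin Δ → Option Bool => hE₂ (ex f) (hex1 f)
  set B := (E₃ + 2) * Δ + E₂ + E₁ with hB
  refine ⟨q + 2 * Δ, (B + 1) * E₄, fun g => ?_⟩
  have hx := two_le_g g
  have hx1 := one_le_base g
  have h1 := (hE₁ g).mono le_rfl (base_mono hx1 (show E₁ ≤ B by omega))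
  have hPB : ∀ f, Bd (2 * Δ) (((g : ℝ) + 2) ^ B) (P f g) := fun f =>
    (hP f g).1.mono le_rfl (base_mono hx1 (by omega))
  have hph : Bd (2 * Δ) (((g : ℝ) + 2) ^ B) (ph c g ^ Δ) := by
    refine ((hE₃ g).pow Δ).mono le_rfl ?_
    have h5 : (((2 : ℕ) : ℝ) + 1) * ((g : ℝ) + 2) ^ E₃ ≤ ((g : ℝ) + 2) ^ (E₃ + 2) := by
      rw [pow_add, mul_comm]
      refine mul_le_mul_of_nonneg_left ?_ (by positivity)
      push_cast
      nlinarith
    calc ((((2 : ℕ) : ℝ) + 1) * ((g : ℝ) + 2) ^ E₃) ^ Δ ≤ (((g : ℝ) + 2) ^ (E₃ + 2)) ^ Δ :=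
          pow_le_pow_left₀ (by positivity) h5 _
      _ = ((g : ℝ) + 2) ^ ((E₃ + 2) * Δ) := by rw [← pow_mul]
      _ ≤ _ := base_mono hx1 (by omega)
  have h2 := hE₄ (Fin Δ → Option Bool) (Kx Δ) (((g : ℝ) + 2) ^ B) (ph c g * Polynomial.X) (ph c g ^ Δ)
    (fun f => ∏ i, ((f i).elim 1 (zq c g) : ℚ⟦X⟧)) (wf c Δ g) wd
    (fun f j => if j = jj f then P f g else 0)
    (le_max_left _ _) (le_max_right _ _) h1 ?_ hph.1 hph.2 ?_ ?_ ?_
  · exact h2.mono le_rfl (pow_base g _ _)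
  · intro j
    exact (hwd j (zq c g)).symm
  · intro f j
    split_ifs
    · exact (hPB f).1
    · simp
  · intro f j l
    split_ifs
    · exact (hPB f).2 l
    · simp; positivity
  · intro f
    rw [Finset.sum_eq_single (jj f)]
    · rw [if_pos rfl, hex2 f (zq c g)]
      exact (hP f g).2
    · intro j _ hj
      rw [if_neg hj, ps_zero, zero_mul]
    · intro h
      exact absurd (Finset.mem_univ _) h

section multi
variable {s : ℕ} (c : Fin s → ℤ) (Δ : ℕ)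

/-- exponents of all types -/
def Kap (c : Fin s → ℤ) (Δ : ℕ) : Type := {e : Fin s → Kx Δ // ∀ a, c a = 0 → ((e a).1 true : ℕ) = 0}

instance : Fintype (Kap c Δ) := by unfold Kap; infer_instance
instance : DecidableEq (Kap c Δ) := by unfold Kap; infer_instance

/-- products over the types, with shift `g + 1` -/
noncomputable def ww (g : ℕ) (e : Kap c Δ) : ℚ⟦X⟧ := ∏ a, wf (c a) Δ (g + 1) (e.1 a)

/-- the denominators -/
noncomputable def TT (g : ℕ) : Polynomial ℤ := ∏ a, Tq (c a) Δ (g + 1)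

/-- forget the exponent of the root -/
def rz {Δ : ℕ} (e : Kx Δ) : Kx Δ :=
  ⟨fun b => if b then 0 else e.1 false, by
    have h := e.2.1
    rw [Fintype.sum_bool] at h ⊢
    simp
    omega, by simp⟩

/-- restriction of the exponents -/
def rx (c₀ : ℤ) {Δ : ℕ} (e : Kx Δ) : Kx Δ := if c₀ = 0 then rz e else e

theorem rx_true {c₀ : ℤ} {Δ : ℕ} (e : Kx Δ) (h : c₀ = 0) : ((rx c₀ e).1 true : ℕ) = 0 := by
  unfold rx
  rw [if_pos h]
  simp [rz]

theorem wf_rx (c₀ : ℤ) {Δ : ℕ} (e : Kx Δ) (g : ℕ) : wf c₀ Δ g (rx c₀ e) = wf c₀ Δ g e := by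
  unfold rx
  by_cases h : c₀ = 0
  · rw [if_pos h, wf_def, wf_def, if_pos h, if_pos h]
    simp [rz]
  · rw [if_neg h]

theorem rx_self {c₀ : ℤ} {Δ : ℕ} (e : Kx Δ) (he : c₀ = 0 → (e.1 true : ℕ) = 0) : rx c₀ e = e := by
  unfold rx
  by_cases h : c₀ = 0
  · rw [if_pos h]
    apply Subtype.ext
    funext b
    cases b
    · simp [rz]
    · have := he h
      apply Fin.ext
      simp [rz, this]
  · rw [if_neg h]

/-- restriction of the exponents -/
def res (c : Fin s → ℤ) {Δ : ℕ} (e : Fin s → Kx Δ) : Kap c Δ :=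
  ⟨fun a => rx (c a) (e a), fun a ha => rx_true _ ha⟩

theorem wf_res (e : Fin s → Kx Δ) (a : Fin s) (g : ℕ) : wf (c a) Δ g ((res c e).1 a) = wf (c a) Δ g (e a) :=
  wf_rx _ _ _

theorem res_surj (e : Kap c Δ) : res c e.1 = e := by
  apply Subtype.ext
  funext a
  exact rx_self _ (e.2 a)

theorem sys (hs : 0 < s) (r : ℕ) : ∃ q E : ℕ, ∀ (H : ℕ) (g : Fin r → ℕ), (∀ l, g l ≤ H) →
    GSys q (((H : ℝ) + 2) ^ E) (∏ l, TT c Δ (g l)) (fun e : Fin r → Kap c Δ => ∏ l, ww c Δ (g l) (e l)) := by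
  classical
  choose q₀ E₀ h₀ using fun a => one_sys (c a) Δ
  set Q := ∑ a, q₀ a with hQ
  set E := ∑ a, E₀ a with hE
  have hQa : ∀ a, q₀ a ≤ Q := fun a => Finset.single_le_sum (f := q₀) (fun _ _ => Nat.zero_le _) (Finset.mem_univ a)
  have hEa : ∀ a, E₀ a ≤ E := fun a => Finset.single_le_sum (f := E₀) (fun _ _ => Nat.zero_le _) (Finset.mem_univ a)
  -- the coding
  set ca : ℕ → Fin s := fun m => ⟨m % s, Nat.mod_lt _ hs⟩ with hca
  have hcode : ∀ m : ℕ, GSys Q (((m : ℝ) + 2) ^ (2 * E)) (Tq (c (ca m)) Δ (m / s + 1)) (wf (c (ca m)) Δ (m / s + 1)) := by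
    intro m
    refine (h₀ (ca m) (m / s + 1)).mono (hQa _) ?_
    have h1 : (((m / s + 1 : ℕ) : ℝ) + 2) ≤ ((m : ℝ) + 2) ^ 2 := by
      have h2 : ((m / s : ℕ) : ℝ) ≤ m := by exact_mod_cast Nat.div_le_self _ _
      have h3 : (0 : ℝ) ≤ m := Nat.cast_nonneg _
      push_cast at h2 ⊢
      nlinarith
    calc (((m / s + 1 : ℕ) : ℝ) + 2) ^ E₀ (ca m) ≤ (((m : ℝ) + 2) ^ 2) ^ E₀ (ca m) :=
          pow_le_pow_left₀ (by positivity) h1 _
      _ = ((m : ℝ) + 2) ^ (2 * E₀ (ca m)) := by rw [← pow_mul]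
      _ ≤ _ := base_mono (one_le_base m) (Nat.mul_le_mul_left _ (hEa _))
  obtain ⟨q₁, E₁, h₁⟩ := gsys_multi (fun m => wf (c (ca m)) Δ (m / s + 1)) (fun m => Tq (c (ca m)) Δ (m / s + 1)) Q
    (2 * E) hcode (r * s)
  obtain ⟨E₂, h₂⟩ := collapse (max (Fintype.card (Fin r → Fin s → Kx Δ)) (Fintype.card (Fin r → Kap c Δ))) q₁
  refine ⟨q₁, ((s + 1) * E₁ + 1) * E₂, fun H g hg => ?_⟩
  set code : Fin (r * s) → ℕ := fun i => g (finProdFinEquiv.symm i).1 * s + ((finProdFinEquiv.symm i).2 : ℕ) with hcd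
  have hc1 : ∀ i, code i / s = g (finProdFinEquiv.symm i).1 := by
    intro i
    rw [hcd]
    simp only
    rw [mul_comm, Nat.mul_add_div hs, Nat.div_eq_of_lt (finProdFinEquiv.symm i).2.2, add_zero]
  have hc2 : ∀ i, ca (code i) = (finProdFinEquiv.symm i).2 := by
    intro i
    apply Fin.ext
    rw [hca, hcd]
    simp only
    rw [mul_comm, Nat.mul_add_mod, Nat.mod_eq_of_lt (finProdFinEquiv.symm i).2.2]
  have hcH : ∀ i, code i ≤ (H + 1) * s := by
    intro i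
    have e1 := Nat.mul_le_mul_right s (hg (finProdFinEquiv.symm i).1)
    have e2 := (finProdFinEquiv.symm i).2.2
    have e3 : (H + 1) * s = H * s + s := by ring
    rw [hcd, e3]
    simp only
    omega
  have h3 := h₁ ((H + 1) * s) code hcH
  have hHb := one_le_base H
  have h4 := h3.mono le_rfl (show ((((H + 1) * s : ℕ) : ℝ) + 2) ^ E₁ ≤ ((H : ℝ) + 2) ^ ((s + 1) * E₁) by
    rw [pow_mul]
    refine pow_le_pow_left₀ (by positivity) ?_ _
    have e1 : ((s : ℝ) + 1) ≤ 2 ^ s := succ_le_two_pow s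
    have e2 : (2 : ℝ) ^ s ≤ ((H : ℝ) + 2) ^ s := pow_le_pow_left₀ (by norm_num) (two_le_g H) _
    have e3 : (0 : ℝ) ≤ H := Nat.cast_nonneg _
    have e4 : (0 : ℝ) ≤ s := Nat.cast_nonneg _
    calc ((((H + 1) * s : ℕ) : ℝ) + 2) ≤ ((H : ℝ) + 2) * (s + 1) := by push_cast; nlinarith
      _ ≤ ((H : ℝ) + 2) * ((H : ℝ) + 2) ^ s := mul_le_mul_of_nonneg_left (e1.trans e2) (by positivity)
      _ = _ := by ring)
  -- reindexing
  let ε : (Fin r → Fin s → Kx Δ) ≃ (Fin (r * s) → Kx Δ) :=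
    (Equiv.curry (Fin r) (Fin s) (Kx Δ)).symm.trans (Equiv.arrowCongr finProdFinEquiv (Equiv.refl _))
  have hε : ∀ b l a, ε b (finProdFinEquiv (l, a)) = b l a := by
    intro b l a
    simp [ε, Equiv.arrowCongr, Equiv.curry, Function.uncurry]
  have h5 := h4.reindex ε
  have hT : ∏ l, TT c Δ (g l) = ∏ i, Tq (c (ca (code i))) Δ (code i / s + 1) := by
    rw [← finProdFinEquiv.prod_comp, Fintype.prod_prod_type]
    refine Finset.prod_congr rfl fun l _ => ?_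
    unfold TT
    refine Finset.prod_congr rfl fun a _ => ?_
    rw [hc1, hc2, Equiv.symm_apply_apply]
  have hy : ∀ b : Fin r → Fin s → Kx Δ, ∏ i, wf (c (ca (code i))) Δ (code i / s + 1) (ε b i) =
      ∏ l, ww c Δ (g l) (res c (b l)) := by
    intro b
    rw [← finProdFinEquiv.prod_comp, Fintype.prod_prod_type]
    refine Finset.prod_congr rfl fun l _ => ?_
    unfold ww
    refine Finset.prod_congr rfl fun a _ => ?_
    rw [hc1, hc2, Equiv.symm_apply_apply, wf_res, hε]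
  rw [← hT] at h5
  have h6 := h₂ (Fin r → Fin s → Kx Δ) (Fin r → Kap c Δ) _ _ _
    (fun e : Fin r → Kap c Δ => ∏ l, ww c Δ (g l) (e l)) (fun b l => res c (b l)) (le_max_left _ _) (le_max_right _ _)
    (fun e => ⟨fun l => (e l).1, funext fun l => res_surj c Δ (e l)⟩) hy h5
  exact h6.mono le_rfl (pow_base H _ _)

end multi

end Pool.Agent.H443.QU
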