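import Pool.Agent.H443.QU.Sys
import Pool.Graph.R_seed8.Y37.GF.PS
import Pool.Graph.R_seed8.Y113.G.Ev

/-!
# The values of the power series are logarithms of quadratic integers
-/

set_option autoImplicit false

open PowerSeries

namespace Pool.Agent.H443.QU

open Pool.Agent.Y113 Pool.Agent.Y37.GF Pool.Agent.Y678.HV

/-- `√φ` -/
noncomputable def Sq (c : ℤ) (g : ℕ) : ℚ⟦X⟧ := ps (ph c g) * Rq c g

/-- the quadratic integer divided by `t` -/
noncomputable def Aq (c : ℤ) (g : ℕ) : ℚ⟦X⟧ := C (1 / 2 : ℚ) * ((1 + C (g : ℚ) * X) + Sq c g)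

theorem half_two : (C (1 / 2 : ℚ) : ℚ⟦X⟧) * 2 = 1 := by
  have : (2 : ℚ⟦X⟧) = C 2 := (map_ofNat C 2).symm
  rw [this, ← map_mul]
  norm_num

theorem Sq_sq (c : ℤ) (g : ℕ) : Sq c g ^ 2 = ps (ph c g) := by
  have h := Rq_sq c g
  unfold Sq
  linear_combination ps (ph c g) * h

theorem Sq_R (c : ℤ) (g : ℕ) : Sq c g * Rq c g = 1 := by
  have h := Rq_sq c g
  unfold Sq
  linear_combination h

theorem ph_der (c : ℤ) (g : ℕ) : X * d⁄dX ℚ (ps (ph c g)) = 2 * ps (ph c g) - 2 * (1 + C (g : ℚ) * X) := by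
  have h1 : d⁄dX ℚ (ps (ph c g)) = 2 * (1 + C (g : ℚ) * X) * C (g : ℚ) - C (4 * c : ℚ) * (2 * X) := by
    have hC : ∀ a : ℚ, d⁄dX ℚ (C a : ℚ⟦X⟧) = 0 := fun a => by rw [derivative_C]
    rw [ps_ph, map_sub, Derivation.leibniz_pow, Derivation.leibniz, Derivation.leibniz_pow, map_add,
      Derivation.leibniz, hC, hC, derivative_X, Derivation.map_one_eq_zero]
    simp only [smul_eq_mul, nsmul_eq_mul, Nat.cast_ofNat, Nat.add_one_sub_one, pow_one, mul_one, mul_zero, add_zero,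
      zero_add]
    ring
  rw [h1, ps_ph]
  ring

theorem Sq_der (c : ℤ) (g : ℕ) : 2 * d⁄dX ℚ (Sq c g) = d⁄dX ℚ (ps (ph c g)) * Rq c g := by
  have h1 := congrArg (fun f => d⁄dX ℚ f) (Sq_sq c g)
  simp only [Derivation.leibniz_pow, smul_eq_mul, nsmul_eq_mul, Nat.cast_ofNat, Nat.add_one_sub_one, pow_one] at h1
  have h2 := Sq_R c g
  linear_combination Rq c g * h1 - 2 * d⁄dX ℚ (Sq c g) * h2

theorem Aq_der (c : ℤ) (g : ℕ) : d⁄dX ℚ (Aq c g) = d⁄dX ℚ (Yq c g) * Aq c g := by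
  apply mul_left_cancel₀ (X_ne_zero (R := ℚ))
  have h1 : d⁄dX ℚ (Aq c g) = C (1 / 2 : ℚ) * (C (g : ℚ) + d⁄dX ℚ (Sq c g)) := by
    have hC : ∀ a : ℚ, d⁄dX ℚ (C a : ℚ⟦X⟧) = 0 := fun a => by rw [derivative_C]
    unfold Aq
    rw [Derivation.leibniz, map_add, map_add, Derivation.leibniz, hC, hC, derivative_X, Derivation.map_one_eq_zero]
    simp only [smul_eq_mul, mul_one, mul_zero, add_zero, zero_add]
  have h2 := Yq_der c g
  have h3 := Sq_der c g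
  have h4 := ph_der c g
  have h5 := Sq_R c g
  have h6 : Sq c g = ps (ph c g) * Rq c g := rfl
  have h7 := half_two
  rw [h1]
  unfold Aq
  linear_combination (-(C (1 / 2 : ℚ) * ((1 + C (g : ℚ) * X) + Sq c g))) * h2 + (-(X * d⁄dX ℚ (Sq c g) * C (1 / 2 : ℚ))) * h7 + (C (1 / 2 : ℚ) ^ 2 * X) * h3 +
    (C (1 / 2 : ℚ) ^ 2 * Rq c g) * h4 + C (1 / 2 : ℚ) * (Rq c g * (ps (ph c g) - (1 + C (g : ℚ) * X))) * h7 +
    C (1 / 2 : ℚ) * h5 - C (1 / 2 : ℚ) * h6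

theorem E_zero' (f : ℚ⟦X⟧) : E f 0 = ((coeff 0 f : ℚ) : ℝ) := by
  unfold E
  rw [tsum_eq_single 0]
  · simp
  · intro m hm
    rw [zero_pow hm, mul_zero]

theorem Aq_zero (c : ℤ) (g : ℕ) : coeff 0 (Aq c g) = 1 := by
  have h : constantCoeff (ps (ph c g)) = 1 := by
    rw [ps_ph]
    simp
  rw [coeff_zero_eq_constantCoeff_apply, Aq, Sq, map_mul, map_add, map_mul, map_add, map_mul, Rq_zero, h]
  simp
  norm_num

section an
variable {c : ℤ} {g : ℕ} {r r' : ℝ}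

theorem SR_ph (c : ℤ) (g : ℕ) (r : ℝ) : SR r (ps (ph c g)) := SR.poly _ _

theorem SR_Sq (hr : 0 ≤ r) (hR : SR r (Rq c g)) : SR r (Sq c g) := (SR_ph c g r).mul hr hR

theorem SR_lin (g : ℕ) (r : ℝ) : SR r (1 + C (g : ℚ) * X : ℚ⟦X⟧) := by
  rw [← ps_one_add]
  exact SR.poly _ _

theorem SR_Aq (hr : 0 ≤ r) (hR : SR r (Rq c g)) : SR r (Aq c g) :=
  (SR.C _ _).mul hr ((SR_lin g r).add hr (SR_Sq hr hR))

theorem E_lin (g : ℕ) (z : ℝ) : E (1 + C (g : ℚ) * X : ℚ⟦X⟧) z = 1 + g * z := by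
  rw [← ps_one_add]
  unfold ps
  rw [E_poly]
  simp

theorem E_ph (c : ℤ) (g : ℕ) (z : ℝ) : E (ps (ph c g)) z = (1 + g * z) ^ 2 - 4 * c * z ^ 2 := by
  unfold ps ph
  rw [E_poly]
  have h4 : (Polynomial.aeval z) (4 : Polynomial ℚ) = 4 := map_ofNat _ 4
  simp [h4]

theorem exp_Y (hr : 0 ≤ r) (hrr : r < r') (hR : SR r' (Rq c g)) (hY : SR r' (Yq c g)) {z : ℝ} (hz : 0 ≤ z) (hzr : z < r) :
    E (Aq c g) z = Real.exp (E (Yq c g) z) := by
  have hr' : 0 ≤ r' := hr.trans hrr.le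
  have hA := SR_Aq hr' hR
  set f : ℝ → ℝ := fun x => E (Aq c g) x * Real.exp (-E (Yq c g) x) with hf
  have hd : ∀ x, |x| < r → HasDerivAt f 0 x := by
    intro x hx
    have hx' : |x| < r' := hx.trans hrr
    have h1 := hasDerivAt_E hA hx'
    have h2 := hasDerivAt_E hY hx'
    have h3 := h1.mul (h2.neg.exp)
    have h4 : E (d⁄dX ℚ (Aq c g)) x = E (d⁄dX ℚ (Yq c g)) x * E (Aq c g) x := by
      rw [Aq_der, E_mul (hY.der hr hrr) (hA.mono hr hrr.le) hx.le]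
    rw [h4] at h3
    refine h3.congr_deriv ?_
    ring
  have h1 : ∀ x ∈ Set.Icc (0 : ℝ) z, f x = f 0 := by
    refine constant_of_has_deriv_right_zero (fun x hx => ?_) (fun x hx => ?_)
    · refine (hd x ?_).continuousAt.continuousWithinAt
      rw [abs_of_nonneg hx.1]
      exact lt_of_le_of_lt hx.2 hzr
    · refine (hd x ?_).hasDerivWithinAt
      rw [abs_of_nonneg hx.1]
      exact hx.2.trans hzr
  have h2 := h1 z ⟨hz, le_rfl⟩
  rw [hf] at h2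
  simp only at h2
  rw [E_zero', E_zero', Aq_zero, Yq_zero] at h2
  simp only [Rat.cast_one, Rat.cast_zero, neg_zero, Real.exp_zero, mul_one] at h2
  rw [Real.exp_neg] at h2
  have h3 := Real.exp_pos (E (Yq c g) z)
  field_simp at h2
  exact h2

theorem S_pos (hr : 0 ≤ r) (hR : SR r (Rq c g)) {z : ℝ} (hz : 0 ≤ z) (hzr : z < r) : 0 < E (Sq c g) z := by
  have hS := SR_Sq hr hR
  have hne : ∀ x, 0 ≤ x → x ≤ z → E (Sq c g) x ≠ 0 := by
    intro x hx hxz h0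
    have hx' : |x| ≤ r := by
      rw [abs_of_nonneg hx]
      linarith
    have h1 : E (Sq c g * Rq c g) x = E (1 : ℚ⟦X⟧) x := by rw [Sq_R]
    rw [E_mul hS hR hx', E_one, h0, zero_mul] at h1
    exact zero_ne_one h1
  have h0 : E (Sq c g) 0 = 1 := by
    rw [E_zero']
    have h : constantCoeff (ps (ph c g)) = 1 := by
      rw [ps_ph]
      simp
    rw [coeff_zero_eq_constantCoeff_apply, Sq, map_mul, Rq_zero, h]
    simp
  by_contra hcon
  rw [not_lt] at hcon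
  have hcont : ContinuousOn (E (Sq c g)) (Set.Icc 0 z) := by
    intro x hx
    refine (hasDerivAt_E hS ?_).continuousAt.continuousWithinAt
    rw [abs_of_nonneg hx.1]
    exact lt_of_le_of_lt hx.2 hzr
  have h1 := intermediate_value_Icc' hz hcont
  rw [h0] at h1
  obtain ⟨x, hx, hx0⟩ := h1 ⟨hcon, zero_le_one⟩
  exact hne x hx.1 hx.2 hx0

/-- the value -/
theorem val (hr : 0 ≤ r) (hrr : r < r') (hR : SR r' (Rq c g)) (hY : SR r' (Yq c g)) {t : ℝ} (ht : 0 < t)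
    (htr : 1 / t < r) : Real.log (((t + g) + √((t + g) ^ 2 - 4 * c)) / 2) = Real.log t + ev t (Yq c g) := by
  have hr' : 0 ≤ r' := hr.trans hrr.le
  have hz : 0 ≤ 1 / t := by positivity
  have hz' : |1 / t| ≤ r' := by
    rw [abs_of_nonneg hz]
    linarith
  have h1 := exp_Y hr hrr hR hY hz htr
  have h2 := S_pos hr' hR hz (htr.trans hrr)
  have h3 : E (Sq c g) (1 / t) ^ 2 = (1 + g * (1 / t)) ^ 2 - 4 * c * (1 / t) ^ 2 := by
    rw [← E_ph, ← E_pow hr' (SR_Sq hr' hR) hz', Sq_sq]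
  have h4 : E (Sq c g) (1 / t) * t = √((t + g) ^ 2 - 4 * c) := by
    rw [eq_comm, Real.sqrt_eq_iff_mul_self_eq_of_pos (by positivity)]
    have e1 : E (Sq c g) (1 / t) * t * (E (Sq c g) (1 / t) * t) = E (Sq c g) (1 / t) ^ 2 * t ^ 2 := by ring
    rw [e1, h3]
    field_simp
  have h5 : E (Aq c g) (1 / t) = ((t + g) + √((t + g) ^ 2 - 4 * c)) / 2 / t := by
    have e1 : E (Aq c g) (1 / t) = ((1 / 2 : ℚ) : ℝ) * ((1 + g * (1 / t)) + E (Sq c g) (1 / t)) := by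
      unfold Aq
      rw [E_mul (SR.C _ _) ((SR_lin g r').add hr' (SR_Sq hr' hR)) hz', E_C, E_add (SR_lin g r') (SR_Sq hr' hR) hz', E_lin]
    rw [e1, ← h4]
    push_cast
    field_simp
  rw [h5] at h1
  have h6 : ((t + g) + √((t + g) ^ 2 - 4 * c)) / 2 = t * Real.exp (E (Yq c g) (1 / t)) := by
    rw [← h1]
    field_simp
  rw [h6, Real.log_mul ht.ne' (Real.exp_pos _).ne', Real.log_exp]
  rfl

end an

/-- the values, uniformly in the shift -/
theorem vals (c : ℤ) : ∃ E₁ : ℕ, ∀ g t : ℕ, ((g : ℝ) + 2) ^ E₁ ≤ t → Cv (t : ℝ) (Yq c g) ∧ Cv (t : ℝ) (Rq c g) ∧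
    Real.log ((((t : ℝ) + g) + √(((t : ℝ) + g) ^ 2 - 4 * c)) / 2) = Real.log t + ev t (Yq c g) := by
  obtain ⟨q, E₀, hE₀⟩ := base_sys c
  refine ⟨E₀ + 3, fun g t ht => ?_⟩
  have hx := two_le_g g
  have hx1 := one_le_base g
  have hlt : ∀ {a b : ℕ}, a < b → ((g : ℝ) + 2) ^ a < ((g : ℝ) + 2) ^ b := fun hab =>
    pow_lt_pow_right₀ (by linarith) hab
  have ht0 : (0 : ℝ) < t := lt_of_lt_of_le (by positivity) ht
  have hsize : ∀ (o : Option Bool) m, |((coeff m ((o.elim 1 (zq c g) : ℚ⟦X⟧)) : ℚ) : ℝ)| ≤ ((g : ℝ) + 2) ^ E₀ * (((g : ℝ) + 2) ^ E₀) ^ m := by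
    intro o m
    have h := (hE₀ g).size o m
    rwa [pow_succ'] at h
  have hR : SR (1 / ((g : ℝ) + 2) ^ (E₀ + 1)) (Rq c g) := by
    refine SR.of_bound (by positivity) (by positivity) ?_ (hsize (some true))
    rw [mul_one_div, div_lt_one (by positivity)]
    exact hlt (by omega)
  have hY : SR (1 / ((g : ℝ) + 2) ^ (E₀ + 1)) (Yq c g) := by
    refine SR.of_bound (by positivity) (by positivity) ?_ (hsize (some false))
    rw [mul_one_div, div_lt_one (by positivity)]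
    exact hlt (by omega)
  have hEt : ((g : ℝ) + 2) ^ E₀ < t := lt_of_lt_of_le (hlt (by omega)) ht
  refine ⟨Cv.of_bound ht0 (by positivity) hEt (hsize (some false)), Cv.of_bound ht0 (by positivity) hEt (hsize (some true)),
    ?_⟩
  have h1 := val (c := c) (g := g) (r := 1 / ((g : ℝ) + 2) ^ (E₀ + 2)) (r' := 1 / ((g : ℝ) + 2) ^ (E₀ + 1))
    (by positivity) (one_div_lt_one_div_of_lt (by positivity) (hlt (by omega))) hR hY ht0
    (one_div_lt_one_div_of_lt (by positivity) (lt_of_lt_of_le (hlt (by omega)) ht))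
  exact h1

end Pool.Agent.H443.QU
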