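import Pool.Agent.H443.QU.Ind
import Pool.Agent.H443.QU.Val
import Pool.Graph.R_seed8.Y341.HGWk
import Pool.Graph.R_seed8.Y916.AT

/-!
# Windows: logarithms of quadratic integers
-/

set_option autoImplicit false

open PowerSeries

namespace Pool.Agent.H443.QU

open Pool.Agent.Y113 Pool.Agent.Y118.HG Pool.Agent.Y678.HV

/-- the larger root of `X² - n X + c` -/
noncomputable def qi (c : ℤ) (n : ℕ) : ℝ := ((n : ℝ) + √((n : ℝ) ^ 2 - 4 * c)) / 2

section
variable {s : ℕ} (c : Fin s → ℤ)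

theorem TT_ne (Δ : ℕ) : ∃ E : ℕ, ∀ g t : ℕ, ((g : ℝ) + 2) ^ E ≤ t → Polynomial.aeval (1 / (t : ℝ)) (TT c Δ g) ≠ 0 := by
  obtain ⟨n, hn⟩ := exists_two_pow (∑ a, 4 * |(c a : ℝ)| + 1)
  refine ⟨n + 1, fun g t ht => ?_⟩
  have hx := two_le_g g
  have h1 : (∑ a, 4 * |(c a : ℝ)| + 1) < t := by
    have e1 : (2 : ℝ) ^ (n + 1) ≤ ((g : ℝ) + 2) ^ (n + 1) := pow_le_pow_left₀ (by norm_num) hx _
    have e2 : (2 : ℝ) ^ (n + 1) = 2 * 2 ^ n := by ring
    have e3 : (1 : ℝ) ≤ 2 ^ n := one_le_pow₀ (by norm_num)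
    linarith
  have h2 : ∀ a, 4 * |(c a : ℝ)| + 1 < t := by
    intro a
    have := Finset.single_le_sum (f := fun a => 4 * |(c a : ℝ)|) (fun _ _ => by positivity) (Finset.mem_univ a)
    linarith
  have ht1 : (1 : ℝ) < t := by
    have : 0 ≤ ∑ a, 4 * |(c a : ℝ)| := Finset.sum_nonneg fun _ _ => by positivity
    linarith
  have ht0 : (0 : ℝ) < t := by linarith
  unfold TT
  rw [map_prod, Finset.prod_ne_zero_iff]
  intro a _
  have h3 : Polynomial.aeval (1 / (t : ℝ)) (ph (c a) (g + 1)) ≠ 0 := by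
    have e1 : Polynomial.aeval (1 / (t : ℝ)) (ph (c a) (g + 1)) =
        (1 + ((g + 1 : ℕ) : ℝ) * (1 / (t : ℝ))) ^ 2 - 4 * (c a) * (1 / (t : ℝ)) ^ 2 := by
      have h4 : ∀ z : ℝ, (Polynomial.aeval z) (4 : Polynomial ℤ) = 4 := fun z => map_ofNat _ 4
      unfold ph
      simp [h4]
    rw [e1]
    have e2 : 4 * (c a : ℝ) * (1 / (t : ℝ)) ^ 2 < 1 := by
      have e3 : 4 * (c a : ℝ) < t := by
        have := le_abs_self (c a : ℝ)
        have := h2 a
        linarith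
      have e4 : (1 / (t : ℝ)) ^ 2 = 1 / (t * t) := by ring
      rw [e4, mul_one_div, div_lt_one (by positivity)]
      nlinarith
    have e5 : 1 ≤ (1 + ((g + 1 : ℕ) : ℝ) * (1 / (t : ℝ))) ^ 2 := by
      have : (0 : ℝ) ≤ ((g + 1 : ℕ) : ℝ) * (1 / (t : ℝ)) := by positivity
      nlinarith
    intro h
    linarith
  unfold Tq
  rw [map_mul, map_mul, map_pow, Polynomial.aeval_X]
  exact mul_ne_zero (mul_ne_zero h3 (by positivity)) (pow_ne_zero _ h3)

/-- the exponents without roots -/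
def pur {Δ : ℕ} {c : Fin s → ℤ} (e : Kap c Δ) : Prop := ∀ a, ((e.1 a).1 true : ℕ) = 0

instance {Δ : ℕ} {c : Fin s → ℤ} (e : Kap c Δ) : Decidable (pur e) := by unfold pur; infer_instance

/-- the zero exponent -/
def kz (c : Fin s → ℤ) (Δ : ℕ) : Kap c Δ := ⟨fun _ => ⟨fun _ => 0, by simp, by simp⟩, fun _ _ => by simp⟩

theorem ww_kz (Δ g : ℕ) : ww c Δ g (kz c Δ) = 1 := by
  unfold ww
  refine Finset.prod_eq_one fun a _ => ?_
  rw [wf_def]
  simp [kz]

theorem ww_pur {Δ g : ℕ} (e : Kap c Δ) (he : pur e) : ww c Δ g e = ∏ a, Yq (c a) (g + 1) ^ ((e.1 a).1 false : ℕ) := by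
  unfold ww
  refine Finset.prod_congr rfl fun a _ => ?_
  rw [wf_def, he a]
  simp

variable {k : ℕ}

/-- the exponents of the logarithms -/
noncomputable def ex {Δ : ℕ} {c : Fin s → ℤ} (e : Fin k → Kap c Δ) : (Fin k × Fin s) →₀ ℕ :=
  Finsupp.equivFunOnFinite.symm fun p => (((e p.1).1 p.2).1 false : ℕ)

theorem ex_apply {Δ : ℕ} {c : Fin s → ℤ} (e : Fin k → Kap c Δ) (p : Fin k × Fin s) :
    ex e p = (((e p.1).1 p.2).1 false : ℕ) := rfl

theorem ex_inj {Δ : ℕ} {c : Fin s → ℤ} (e e' : Fin k → Kap c Δ) (h : ∀ i, pur (e i)) (h' : ∀ i, pur (e' i))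
    (hee : ex e = ex e') : e = e' := by
  funext i
  apply Subtype.ext
  funext a
  apply Subtype.ext
  funext b
  apply Fin.ext
  cases b
  · have := DFunLike.congr_fun hee (i, a)
    rwa [ex_apply, ex_apply] at this
  · rw [h i a, h' i a]

theorem exists_ex {Δ : ℕ} (c : Fin s → ℤ) (d : (Fin k × Fin s) →₀ ℕ) (hd : (d.sum fun _ k => k) ≤ Δ) :
    ∃ e : Fin k → Kap c Δ, (∀ i, pur (e i)) ∧ ex e = d := by
  have h2 : ∑ i, d i ≤ Δ := by
    rwa [Finsupp.sum_fintype _ _ (fun _ => rfl)] at hd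
  have hi : ∀ p, d p ≤ Δ := fun p => by
    have := Finset.single_le_sum (f := fun i => d i) (fun _ _ => Nat.zero_le _) (Finset.mem_univ p)
    omega
  refine ⟨fun i => ⟨fun a => ⟨fun b => if b then 0 else ⟨d (i, a), Nat.lt_succ_of_le (hi _)⟩, ?_, ?_⟩, ?_⟩, ?_, ?_⟩
  · rw [Fintype.sum_bool]
    simpa using hi (i, a)
  · simp
  · intro a _
    simp
  · intro i a
    simp
  · ext p
    rw [ex_apply]
    simp

/-- the logarithms -/
noncomputable def xl {s : ℕ} (c : Fin s → ℤ) (n : ℕ) (a : Fin s) : ℂ := ((Real.log (qi (c a) n) : ℝ) : ℂ)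

theorem win (hc : Function.Injective c) (hs : 0 < s) (k δ D : ℕ) : ∃ M E : ℕ, ∀ V : Submodule ℚ ℂ, Module.Finite ℚ V →
    Module.finrank ℚ V ≤ D → ∀ H t : ℕ, (H + 2) ^ E ≤ t → ∃ S : Finset ℕ, S.card ≤ M ∧ ∀ n : Fin k → ℕ,
    (∀ i, t ≤ n i ∧ n i ≤ t + H ∧ n i ∉ S) → SepN (G0 c) n →
    ¬ Rel δ V (fun p : Fin k × Fin s => xl c (n p.1) p.2) := by
  classical
  obtain ⟨M, E₀, h₀⟩ := Pool.Agent.Y341.HG.t_wk (Kap c δ) (kz c δ) (G0 c) (TT c δ) (ww c δ) (G0_pos c) (ww_kz c δ)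
    (sys c δ hs) (fun r g hg => lind g hc hg) (TT_ne c δ) k (D * 2 ^ δ)
  choose E₁ h₁ using fun a => vals (c a)
  set E := E₀ + 2 * ∑ a, E₁ a + 1 with hE
  refine ⟨M, E, fun V hVf hVD H t ht => ?_⟩
  have hH : (1 : ℝ) ≤ (H : ℝ) + 2 := one_le_base H
  have hE2 : 2 ≤ E + 1 := by omega
  have ht2 : (H + 2) ^ (E - 1) + 1 ≤ t := by
    have e1 : (H + 2) ^ E = (H + 2) ^ (E - 1) * (H + 2) := by
      rw [← pow_succ]
      congr 1
    have e2 : 1 ≤ (H + 2) ^ (E - 1) := Nat.one_le_pow _ _ (by omega)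
    rw [e1] at ht
    nlinarith
  set t' := t - 1 with ht'
  have htt : t = t' + 1 := by omega
  have hpow : ∀ a ≤ E - 1, (H + 2) ^ a ≤ t' := by
    intro a ha
    have := Nat.pow_le_pow_right (show 0 < H + 2 by omega) ha
    omega
  have ht'0 : 0 < t' := lt_of_lt_of_le (by positivity) (hpow 0 (Nat.zero_le _))
  have ht'R : (0 : ℝ) < t' := by exact_mod_cast ht'0
  set L : ℂ := ((Real.log t' : ℝ) : ℂ) with hL
  set u : Unit → ℂ := fun _ => L with hu
  obtain ⟨hs1, hs2⟩ := sp_fin u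
  obtain ⟨hp1, hp2⟩ := finrank_pow_le (sp u) δ
  obtain ⟨hq1, hq2⟩ := finrank_mul_le V ((sp u) ^ δ)
  obtain ⟨S, hS, hS'⟩ := h₀ (V * (sp u) ^ δ) hq1 (hq2.trans (Nat.mul_le_mul hVD
    (hp2.trans (Nat.pow_le_pow_left (hs2.trans (by simp)) _)))) H t' (hpow _ (by omega))
  refine ⟨S.image fun g => g + t, Finset.card_image_le.trans hS, fun n hn hsep hrel => ?_⟩
  set g : Fin k → ℕ := fun i => n i - t with hg
  have hng : ∀ i, n i = t' + (g i + 1) := fun i => by
    have := (hn i).1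
    simp only [hg]
    omega
  have hgH : ∀ i, g i ≤ H := fun i => by
    have := (hn i).2.1
    simp only [hg]
    omega
  have hgS : ∀ i, g i ∉ S := fun i hi => (hn i).2.2 (Finset.mem_image.2 ⟨g i, hi, by
    have := (hn i).1
    simp only [hg]
    omega⟩)
  have hgsep : SepN (G0 c) g := by
    intro i j hij
    have h1 := hsep i j hij
    have h2 := hng i
    have h3 := hng j
    have h4 : (g i : ℤ) - g j = (n i : ℤ) - n j := by omega
    rw [h4]
    exact h1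
  -- the values
  have hvals : ∀ i a, Cv (t' : ℝ) (Yq (c a) (g i + 1)) ∧ xl c (n i) a - ((ev (t' : ℝ) (Yq (c a) (g i + 1)) : ℝ) : ℂ) = L := by
    intro i a
    have h2 : (((g i + 1 : ℕ) : ℝ) + 2) ^ E₁ a ≤ (t' : ℝ) := by
      have e1 : (g i + 1 + 2) ≤ (H + 2) ^ 2 := by
        have := hgH i
        nlinarith
      have e2 : (g i + 1 + 2) ^ E₁ a ≤ t' := by
        refine (Nat.pow_le_pow_left e1 _).trans ?_
        rw [← pow_mul]
        refine hpow _ ?_
        have e3 : E₁ a ≤ ∑ a, E₁ a := Finset.single_le_sum (f := E₁) (fun _ _ => Nat.zero_le _) (Finset.mem_univ a)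
        omega
      exact_mod_cast e2
    obtain ⟨h3, -, h4⟩ := h₁ a (g i + 1) t' h2
    refine ⟨h3, ?_⟩
    have h5 : Real.log (qi (c a) (n i)) = Real.log t' + ev (t' : ℝ) (Yq (c a) (g i + 1)) := by
      have e5 : ((n i : ℕ) : ℝ) = (t' : ℝ) + ((g i + 1 : ℕ) : ℝ) := by
        rw [hng i]
        push_cast
        ring
      rw [← h4, qi, e5]
    unfold xl
    rw [h5, hL, Complex.ofReal_add]
    ring
  set y : Fin k × Fin s → ℂ := fun p => ((ev (t' : ℝ) (Yq (c p.2) (g p.1 + 1)) : ℝ) : ℂ) with hy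
  have hrel2 : Rel δ (V * (sp u) ^ δ) y := by
    refine Pool.Agent.Y916.AW.rel_lin (sp_one u) (l := fun p : Fin k × Fin s => xl c (n p.1) p.2) (fun _ => 1)
      (fun _ => one_ne_zero) (fun p => ?_) hrel
    have h3 : xl c (n p.1) p.2 - ((1 : ℚ) : ℂ) * y p = L := by
      rw [Rat.cast_one, one_mul]
      exact (hvals p.1 p.2).2
    rw [h3]
    exact sp_mem u ()
  obtain ⟨P, hP0, hPd, hPc, hPv⟩ := hrel2
  set cf : (Fin k → Kap c δ) → ℂ := fun e => if ∀ i, pur (e i) then P.coeff (ex e) else 0 with hcf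
  have hmo : ∀ e : Fin k → Kap c δ, (∀ i, pur (e i)) → ∏ i, (ev (t' : ℝ) (ww c δ (g i) (e i)) : ℂ) = ∏ p, y p ^ ex e p := by
    intro e he
    rw [Fintype.prod_prod_type]
    refine Finset.prod_congr rfl fun i _ => ?_
    rw [ww_pur c (e i) (he i), Cv.ev_prod ht'R _ _ fun a _ => (hvals i a).1.pow ht'R _]
    push_cast
    refine Finset.prod_congr rfl fun a _ => ?_
    rw [(hvals i a).1.ev_pow ht'R]
    push_cast
    rfl
  have hsum : ∑ e, cf e * ∏ i, (ev (t' : ℝ) (ww c δ (g i) (e i)) : ℂ) = 0 := by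
    rw [← hPv, MvPolynomial.aeval_def, MvPolynomial.eval₂_eq']
    have h1 : ∑ e, cf e * ∏ i, (ev (t' : ℝ) (ww c δ (g i) (e i)) : ℂ) =
        ∑ e ∈ Finset.univ.filter (fun e : Fin k → Kap c δ => ∀ i, pur (e i)),
          (algebraMap ℂ ℂ) (P.coeff (ex e)) * ∏ p, y p ^ (ex e p) := by
      rw [Finset.sum_filter]
      refine Finset.sum_congr rfl fun e _ => ?_
      rw [hcf]
      dsimp only
      split_ifs with h
      · rw [hmo e h]
        rfl
      · rw [zero_mul]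
    have hinj : Set.InjOn (fun e : Fin k → Kap c δ => ex e)
        (Finset.univ.filter (fun e : Fin k → Kap c δ => ∀ i, pur (e i))) := by
      intro e he e' he' h
      exact ex_inj e e' (by simpa using he) (by simpa using he') h
    have h2 := Finset.sum_image (f := fun d => (algebraMap ℂ ℂ) (P.coeff d) * ∏ p, y p ^ (d p)) hinj
    rw [h1, ← h2]
    symm
    refine Finset.sum_subset ?_ ?_
    · intro d hd
      have h3 : (d.sum fun _ k => k) ≤ δ := (MvPolynomial.le_totalDegree hd).trans hPd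
      obtain ⟨e, he, he'⟩ := exists_ex c d h3
      exact Finset.mem_image.2 ⟨e, by simpa using he, he'⟩
    · intro d _ hd
      rw [MvPolynomial.notMem_support_iff.1 hd]
      simp
  have hcf0 := hS' g hgsep (fun i => ⟨hgH i, hgS i⟩) cf (fun e => by
    rw [hcf]
    dsimp only
    split_ifs
    · exact hPc _
    · exact Submodule.zero_mem _) hsum
  apply hP0
  ext d
  rw [MvPolynomial.coeff_zero]
  by_contra hne
  have h4 : (d.sum fun _ k => k) ≤ δ :=
    (MvPolynomial.le_totalDegree (MvPolynomial.mem_support_iff.2 hne)).trans hPd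
  obtain ⟨e, he, he'⟩ := exists_ex c d h4
  have h5 := congrFun hcf0 e
  rw [hcf] at h5
  dsimp only at h5
  rw [if_pos he, he'] at h5
  exact hne h5

end

end Pool.Agent.H443.QU
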